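import Pool.Agent.Helper99.RS.Cut

/-!
# RS: definitions for unique continuation

* `Cell F φ O`: `O` is relatively open in the surface, `φ` and its tangential gradient have no common zero in `O`, and at every point of `closure O \ O` in the interior of the surface `φ` and its
  tangential gradient vanish.
* `gr F f i`: the components of the tangential gradient. `hs F f x y`: the Hessian of `f` along the surface, as a bilinear form at `y`.
-/

set_option autoImplicit false

open MeasureTheory Filter
open scoped ContDiff Topology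

namespace Pool.Agent.Helper99.RS

open Pool.Agent.Helper78.FB

structure Cell (F φ : E → ℝ) (O : Set E) : Prop where
  sub : O ⊆ surf F
  pos : ∀ y ∈ O, 0 < φ y ^ 2 + tang F φ φ y
  opn : ∀ y ∈ O, ∃ ε : ℝ, 0 < ε ∧ ∀ x ∈ surf F, x ∈ Metric.ball y ε → x ∈ O
  sing : ∀ z ∈ inn F, z ∈ closure O → z ∉ O → φ z = 0 ∧ tang F φ φ z = 0

/-- The tangential gradient. -/
noncomputable def gr (F f : E → ℝ) (i : Fin 3) (y : E) : ℝ := pd i f y - (∑ k, pd k F y * pd k f y) * pd i F y

/-- The Hessian along the surface, for tangential vectors. -/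
noncomputable def hs (F f : E → ℝ) (a b : Fin 3 → ℝ) (y : E) : ℝ :=
  ∑ i, ∑ j, a i * b j * (pd i (pd j f) y - (∑ k, pd k F y * pd k f y) * pd i (pd j F) y)

/-- Unique continuation. -/
def UC (F φ : E → ℝ) : Prop :=
  ∀ O : Set E, Cell F φ O → (∃ a ∈ inn F, a ∉ closure O) → ∀ y ∈ O, y ∉ inn F

/-- No six disjoint pieces of both signs together. -/
def NoSix (F φ : E → ℝ) : Prop :=
  ∀ (σ : Fin 6 → ℝ) (C : Fin 6 → Set E), (∀ i, σ i = 1 ∨ σ i = -1) → (∀ i, Piece F (fun y => σ i * φ y) (C i)) →
    (∀ i, (C i).Nonempty) → (∀ i j, i ≠ j → Disjoint (C i) (C j)) → False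

end Pool.Agent.Helper99.RS
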