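import Mathlib

/-!
# RS: a convex smooth approximation of `max t 0`

`Ps s = ∫_0^s σ (r - 1) dr`, `σ = Real.smoothTransition`; `psi δ t = δ Ps (t / δ)` vanishes for `t ≤ δ`, and `psi' = 1` for `t ≥ 2 δ`.
`p1 δ`, `p2 δ` are the first two derivatives.
-/

set_option autoImplicit false

open MeasureTheory Filter Set
open scoped ContDiff Topology

namespace Pool.Agent.Helper99.RS

noncomputable def sg1 (s : ℝ) : ℝ := Real.smoothTransition (s - 1)

noncomputable def Ps (s : ℝ) : ℝ := ∫ r in (0 : ℝ)..s, sg1 r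

theorem contDiff_sg1 : ContDiff ℝ ∞ sg1 := by
  have h1 : ContDiff ℝ ∞ Real.smoothTransition := Real.smoothTransition.contDiff (n := ⊤)
  exact h1.comp (contDiff_id.sub contDiff_const)

theorem cont_sg1 : Continuous sg1 := contDiff_sg1.continuous

theorem hasDerivAt_Ps (s : ℝ) : HasDerivAt Ps (sg1 s) s := by
  have h1 := cont_sg1.integral_hasStrictDerivAt 0 s
  exact h1.hasDerivAt

theorem deriv_Ps : deriv Ps = sg1 := funext fun s => (hasDerivAt_Ps s).deriv

theorem contDiff_Ps : ContDiff ℝ ∞ Ps := by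
  rw [contDiff_infty_iff_deriv]
  refine ⟨fun s => (hasDerivAt_Ps s).differentiableAt, ?_⟩
  rw [deriv_Ps]
  exact contDiff_sg1

theorem sg1_nonneg (s : ℝ) : 0 ≤ sg1 s := Real.smoothTransition.nonneg _

theorem sg1_le (s : ℝ) : sg1 s ≤ 1 := Real.smoothTransition.le_one _

theorem sg1_zero {s : ℝ} (hs : s ≤ 1) : sg1 s = 0 := Real.smoothTransition.zero_of_nonpos (by linarith)

theorem sg1_one {s : ℝ} (hs : 2 ≤ s) : sg1 s = 1 := Real.smoothTransition.one_of_one_le (by linarith)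

theorem sg1_mono : Monotone sg1 := fun _ _ h => Real.smoothTransition.monotone (by linarith)

theorem Ps_zero {s : ℝ} (hs : s ≤ 1) : Ps s = 0 := by
  unfold Ps
  rcases le_total 0 s with h | h
  · rw [intervalIntegral.integral_congr (g := fun _ => (0 : ℝ))]
    · simp
    · intro r hr
      rw [uIcc_of_le h] at hr
      exact sg1_zero (hr.2.trans hs)
  · rw [intervalIntegral.integral_congr (g := fun _ => (0 : ℝ))]
    · simp
    · intro r hr
      rw [uIcc_of_ge h] at hr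
      exact sg1_zero (hr.2.trans (by norm_num))

theorem Ps_mono : Monotone Ps := monotone_of_deriv_nonneg (contDiff_Ps.differentiable (by simp))
  fun s => by rw [deriv_Ps]; exact sg1_nonneg s

theorem Ps_nonneg (s : ℝ) : 0 ≤ Ps s := by
  rcases le_total s 1 with h | h
  · rw [Ps_zero h]
  · rw [← Ps_zero (le_refl 1)]
    exact Ps_mono h

/-- `s - Ps s` is monotone. -/
theorem sub_mono : Monotone fun s => s - Ps s := by
  refine monotone_of_deriv_nonneg (differentiable_id.sub (contDiff_Ps.differentiable (by simp))) fun s => ?_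
  have h1 : HasDerivAt (fun s => s - Ps s) (1 - sg1 s) s := (hasDerivAt_id s).sub (hasDerivAt_Ps s)
  rw [h1.deriv]
  have := sg1_le s
  linarith

theorem Ps_le {s : ℝ} (hs : 0 ≤ s) : Ps s ≤ s := by
  have h1 := sub_mono hs
  simp only [Ps_zero zero_le_one, sub_zero] at h1
  linarith

theorem Ps_eq {s : ℝ} (hs : 2 ≤ s) : Ps s = Ps 2 + (s - 2) := by
  have h1 : ∀ x ∈ Icc (2 : ℝ) s, (fun x => x - Ps x) x = (fun x => x - Ps x) 2 := by
    apply constant_of_derivWithin_zero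
    · exact (differentiable_id.sub (contDiff_Ps.differentiable (by simp))).differentiableOn
    · intro x hx
      have h2 : HasDerivAt (fun s => s - Ps s) (1 - sg1 x) x := (hasDerivAt_id x).sub (hasDerivAt_Ps x)
      have h3 : HasDerivWithinAt (fun s => s - Ps s) (1 - sg1 x) (Icc 2 s) x := h2.hasDerivWithinAt
      rw [h3.derivWithin (uniqueDiffOn_Icc (lt_of_le_of_lt hx.1 hx.2) x ⟨hx.1, hx.2.le⟩), sg1_one hx.1, sub_self]
  have h2 := h1 s ⟨hs, le_rfl⟩
  simp only at h2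
  linarith

theorem Ps_near (s : ℝ) : |Ps s - max s 0| ≤ 2 := by
  rcases le_total s 0 with h | h
  · rw [Ps_zero (h.trans zero_le_one), max_eq_right h, sub_zero, abs_zero]
    norm_num
  · rw [max_eq_left h, abs_le]
    have h1 := Ps_le h
    rcases le_total s 2 with h2 | h2
    · have := Ps_nonneg s
      constructor <;> linarith
    · have h3 := Ps_eq h2
      have h4 := Ps_nonneg 2
      constructor <;> linarith

noncomputable def psi (δ t : ℝ) : ℝ := δ * Ps (t / δ)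

noncomputable def p1 (δ t : ℝ) : ℝ := sg1 (t / δ)

noncomputable def p2 (δ t : ℝ) : ℝ := deriv sg1 (t / δ) / δ

variable {δ t : ℝ}

theorem contDiff_psi (δ : ℝ) : ContDiff ℝ ∞ (psi δ) :=
  contDiff_const.mul (contDiff_Ps.comp (contDiff_id.div_const δ))

theorem contDiff_p1 (δ : ℝ) : ContDiff ℝ ∞ (p1 δ) := contDiff_sg1.comp (contDiff_id.div_const δ)

theorem contDiff_dsg1 : ContDiff ℝ ∞ (deriv sg1) := (contDiff_infty_iff_deriv.1 contDiff_sg1).2

theorem contDiff_p2 (δ : ℝ) : ContDiff ℝ ∞ (p2 δ) :=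
  (contDiff_dsg1.comp (contDiff_id.div_const δ)).div_const δ

theorem deriv_psi (hδ : δ ≠ 0) : deriv (psi δ) = p1 δ := by
  funext t
  have h1 : HasDerivAt (fun t => t / δ) (1 / δ) t := (hasDerivAt_id t).div_const δ
  have h2 : HasDerivAt (Ps ∘ fun t => t / δ) (sg1 (t / δ) * (1 / δ)) t := (hasDerivAt_Ps (t / δ)).comp t h1
  have h3 : HasDerivAt (psi δ) (δ * (sg1 (t / δ) * (1 / δ))) t := h2.const_mul δ
  rw [h3.deriv]
  unfold p1
  field_simp

theorem deriv_p1 : deriv (p1 δ) = p2 δ := by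
  funext t
  have h1 : HasDerivAt (fun t => t / δ) (1 / δ) t := (hasDerivAt_id t).div_const δ
  have h0 : HasDerivAt sg1 (deriv sg1 (t / δ)) (t / δ) :=
    (contDiff_sg1.differentiable (by simp) (t / δ)).hasDerivAt
  have h2 : HasDerivAt (p1 δ) (deriv sg1 (t / δ) * (1 / δ)) t := h0.comp t h1
  rw [h2.deriv]
  unfold p2
  ring

theorem psi_zero (hδ : 0 < δ) (ht : t ≤ δ) : psi δ t = 0 := by
  unfold psi
  rw [Ps_zero ((div_le_one hδ).2 ht), mul_zero]

theorem p1_zero (hδ : 0 < δ) (ht : t ≤ δ) : p1 δ t = 0 := sg1_zero ((div_le_one hδ).2 ht)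

theorem p1_one (hδ : 0 < δ) (ht : 2 * δ ≤ t) : p1 δ t = 1 := sg1_one ((le_div_iff₀ hδ).2 ht)

theorem p1_nonneg : 0 ≤ p1 δ t := sg1_nonneg _

theorem p1_le : p1 δ t ≤ 1 := sg1_le _

theorem dsg1_nonneg (s : ℝ) : 0 ≤ deriv sg1 s := sg1_mono.deriv_nonneg

theorem dsg1_zero_left {s : ℝ} (hs : s < 1) : deriv sg1 s = 0 := by
  have h1 : sg1 =ᶠ[𝓝 s] fun _ => (0 : ℝ) := by
    filter_upwards [gt_mem_nhds hs] with x hx
    exact sg1_zero (le_of_lt hx)
  rw [h1.deriv_eq, deriv_const]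

theorem dsg1_zero_right {s : ℝ} (hs : 2 < s) : deriv sg1 s = 0 := by
  have h1 : sg1 =ᶠ[𝓝 s] fun _ => (1 : ℝ) := by
    filter_upwards [lt_mem_nhds hs] with x hx
    exact sg1_one (le_of_lt hx)
  rw [h1.deriv_eq, deriv_const]

theorem dsg1_bound : ∃ K : ℝ, 0 ≤ K ∧ ∀ s, deriv sg1 s ≤ K := by
  obtain ⟨K, hK⟩ := isCompact_Icc.exists_bound_of_continuousOn (s := Icc (1 : ℝ) 2)
    (contDiff_dsg1.continuous.continuousOn)
  refine ⟨max K 0, le_max_right _ _, fun s => ?_⟩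
  rcases lt_or_ge s 1 with h | h
  · rw [dsg1_zero_left h]
    exact le_max_right _ _
  · rcases lt_or_ge 2 s with h2 | h2
    · rw [dsg1_zero_right h2]
      exact le_max_right _ _
    · exact (le_abs_self _).trans ((hK s ⟨h, h2⟩).trans (le_max_left _ _))

theorem p2_nonneg (hδ : 0 < δ) : 0 ≤ p2 δ t := div_nonneg (dsg1_nonneg _) hδ.le

theorem p2_zero_left (hδ : 0 < δ) (ht : t < δ) : p2 δ t = 0 := by
  unfold p2
  rw [dsg1_zero_left ((div_lt_one hδ).2 ht), zero_div]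

theorem p2_zero_right (hδ : 0 < δ) (ht : 2 * δ < t) : p2 δ t = 0 := by
  unfold p2
  rw [dsg1_zero_right ((lt_div_iff₀ hδ).2 ht), zero_div]

theorem psi_nonneg (hδ : 0 < δ) : 0 ≤ psi δ t := mul_nonneg hδ.le (Ps_nonneg _)

theorem psi_le (hδ : 0 < δ) (ht : 0 ≤ t) : psi δ t ≤ t := by
  unfold psi
  have h1 := Ps_le (div_nonneg ht hδ.le)
  have h2 := mul_le_mul_of_nonneg_left h1 hδ.le
  rwa [mul_div_cancel₀ _ hδ.ne'] at h2

theorem psi_near (hδ : 0 < δ) : |psi δ t - max t 0| ≤ 2 * δ := by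
  have h1 := Ps_near (t / δ)
  have h2 : psi δ t - max t 0 = δ * (Ps (t / δ) - max (t / δ) 0) := by
    unfold psi
    rw [mul_sub, mul_max_of_nonneg _ _ hδ.le, mul_div_cancel₀ _ hδ.ne', mul_zero]
  rw [h2, abs_mul, abs_of_pos hδ]
  nlinarith [abs_nonneg (Ps (t / δ) - max (t / δ) 0)]

/-- `psi psi''` is bounded. -/
theorem psi_p2_bound : ∃ K : ℝ, 0 ≤ K ∧ ∀ δ : ℝ, 0 < δ → ∀ t : ℝ, 0 ≤ psi δ t * p2 δ t ∧ psi δ t * p2 δ t ≤ K := by
  obtain ⟨K, hK0, hK⟩ := dsg1_bound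
  refine ⟨2 * K, by positivity, fun δ hδ t => ⟨mul_nonneg (psi_nonneg hδ) (p2_nonneg hδ), ?_⟩⟩
  rcases lt_or_ge t δ with h | h
  · rw [p2_zero_left hδ h, mul_zero]
    positivity
  · rcases lt_or_ge (2 * δ) t with h2 | h2
    · rw [p2_zero_right hδ h2, mul_zero]
      positivity
    · have h3 : psi δ t ≤ 2 * δ := (psi_le hδ (hδ.le.trans h)).trans h2
      have h4 : psi δ t * p2 δ t ≤ 2 * δ * p2 δ t := mul_le_mul_of_nonneg_right h3 (p2_nonneg hδ)
      refine h4.trans ?_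
      unfold p2
      have h5 : 2 * δ * (deriv sg1 (t / δ) / δ) = 2 * deriv sg1 (t / δ) := by
        field_simp
      rw [h5]
      linarith [hK (t / δ)]

/-- The sequence `1 / (n + 1)`. -/
noncomputable def dl (n : ℕ) : ℝ := 1 / ((n : ℝ) + 1)

theorem dl_pos (n : ℕ) : 0 < dl n := by
  unfold dl
  positivity

theorem dl_tendsto : Tendsto dl atTop (𝓝 0) := tendsto_one_div_add_atTop_nhds_zero_nat

theorem dl_lt {s : ℝ} (hs : 0 < s) : ∀ᶠ n in atTop, 2 * dl n < s := by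
  have h1 := dl_tendsto.const_mul 2
  rw [mul_zero] at h1
  exact h1.eventually (gt_mem_nhds hs)

end Pool.Agent.Helper99.RS
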