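import Pool.Agent.Helper99.RS.Defs
import Pool.Agent.Helper99.RS.Psi

/-!
# RS: smooth approximations of `φ 1_C`

* `exists_appr`: smooth `G n` with `G n = 1_C (y) psi (dl n) ∘ φ` near every `y ∈ surf F`.
* `lim_Q`: `Q (G n) f → BB F φ C f`; `lim_self`: `Q (G n) (G n) → 0`; `Q_cross`: `Q = 0` for disjoint pieces.
* `bb_flux`: `area (1_C psi'' |∇ φ| ^ 2 f) → -BB F φ C f`; `bb_grad`.
-/

set_option autoImplicit false

open MeasureTheory Filter
open scoped ContDiff Topology Manifold

namespace Pool.Agent.Helper99.RS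

open Pool.Agent.Helper78.FB

variable {F φ f g : E → ℝ} {C C' : Set E}

theorem ind_mem {y : E} (hy : y ∈ C) : ind C y = 1 := if_pos hy

theorem ind_not {y : E} (hy : y ∉ C) : ind C y = 0 := if_neg hy

theorem ind_cases (C : Set E) (y : E) : ind C y = 0 ∨ ind C y = 1 := by
  by_cases h : y ∈ C
  · exact Or.inr (ind_mem h)
  · exact Or.inl (ind_not h)

theorem ind_nonneg (C : Set E) (y : E) : 0 ≤ ind C y := by
  rcases ind_cases C y with h | h <;> rw [h]
  norm_num

theorem ind_le (C : Set E) (y : E) : ind C y ≤ 1 := by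
  rcases ind_cases C y with h | h <;> rw [h]
  norm_num

theorem ind_sq (C : Set E) (y : E) : ind C y * ind C y = ind C y := by
  rcases ind_cases C y with h | h <;> rw [h] <;> norm_num

private theorem closed_in (h : FBMS F) (hφ : Continuous φ) (P : Piece F φ C) {δ : ℝ} (hδ : 0 < δ) :
    IsClosed {y | y ∈ C ∧ δ ≤ φ y} ∧ IsClosed {y | y ∈ surf F ∧ δ ≤ φ y ∧ y ∉ C} := by
  have hS : IsClosed (surf F) := (isCompact_surf h).isClosed
  have hφc : IsClosed {y | δ ≤ φ y} := isClosed_le continuous_const hφ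
  constructor
  · rw [← closure_subset_iff_isClosed]
    intro y hy
    have h1 : y ∈ surf F := hS.closure_subset_iff.2 (fun x hx => (P.sub x hx.1).1) hy
    have h2 : δ ≤ φ y := hφc.closure_subset_iff.2 (fun x hx => hx.2) hy
    refine ⟨?_, h2⟩
    by_contra hn
    obtain ⟨ε, hε, h3⟩ := P.cls y h1 (hδ.trans_le h2) hn
    obtain ⟨x, hx, hxy⟩ := Metric.mem_closure_iff.1 hy ε hε
    exact h3 x (P.sub x hx.1).1 (by rwa [Metric.mem_ball, dist_comm]) hx.1
  · rw [← closure_subset_iff_isClosed]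
    intro y hy
    have h1 : y ∈ surf F := hS.closure_subset_iff.2 (fun x hx => hx.1) hy
    have h2 : δ ≤ φ y := hφc.closure_subset_iff.2 (fun x hx => hx.2.1) hy
    refine ⟨h1, h2, fun hn => ?_⟩
    obtain ⟨ε, hε, h3⟩ := P.opn y hn
    obtain ⟨x, hx, hxy⟩ := Metric.mem_closure_iff.1 hy ε hε
    exact hx.2.2 (h3 x hx.1 (by rwa [Metric.mem_ball, dist_comm]))

private theorem exists_chi (h : FBMS F) (hφ : Continuous φ) (P : Piece F φ C) {δ : ℝ} (hδ : 0 < δ) :
    ∃ χ : E → ℝ, ContDiff ℝ ∞ χ ∧ (∀ y ∈ C, δ ≤ φ y → ∀ᶠ x in 𝓝 y, χ x = 1) ∧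
      ∀ y ∈ surf F, δ ≤ φ y → y ∉ C → ∀ᶠ x in 𝓝 y, χ x = 0 := by
  obtain ⟨c1, c2⟩ := closed_in h hφ P hδ
  have hd : Disjoint {y | y ∈ surf F ∧ δ ≤ φ y ∧ y ∉ C} {y | y ∈ C ∧ δ ≤ φ y} := by
    rw [Set.disjoint_left]
    intro y h1 h2
    exact h1.2.2 h2.1
  obtain ⟨χ, h0, h1, -⟩ := exists_contMDiffMap_zero_one_nhds_of_isClosed 𝓘(ℝ, E) c2 c1 hd (n := ⊤)
  refine ⟨χ, χ.contMDiff.contDiff, fun y hy hy' => ?_, fun y hy hy' hy'' => ?_⟩
  · exact h1.filter_mono (nhds_le_nhdsSet (show y ∈ {y | y ∈ C ∧ δ ≤ φ y} from ⟨hy, hy'⟩))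
  · exact h0.filter_mono (nhds_le_nhdsSet (show y ∈ {y | y ∈ surf F ∧ δ ≤ φ y ∧ y ∉ C} from ⟨hy, hy', hy''⟩))

/-- Cut-off functions: `χ n = 1_C` near the points of `{φ ≥ dl n}`. -/
structure Chi (F φ : E → ℝ) (C : Set E) (χ : ℕ → E → ℝ) : Prop where
  smooth : ∀ n, ContDiff ℝ ∞ (χ n)
  eq : ∀ n, ∀ y ∈ surf F, φ y < dl n ∨ ∀ᶠ x in 𝓝 y, χ n x = ind C y

/-- An approximating sequence of `φ 1_C`. -/
structure Appr (F φ : E → ℝ) (C : Set E) (G : ℕ → E → ℝ) : Prop where
  smooth : ∀ n, ContDiff ℝ ∞ (G n)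
  eq : ∀ n, ∀ y ∈ surf F, G n =ᶠ[𝓝 y] fun x => ind C y * psi (dl n) (φ x)

theorem exists_Chi (h : FBMS F) (hφ : ContDiff ℝ ∞ φ) (P : Piece F φ C) : ∃ χ : ℕ → E → ℝ, Chi F φ C χ := by
  choose χ hχ h1 h0 using fun n : ℕ => exists_chi h hφ.continuous P (dl_pos n)
  refine ⟨χ, hχ, fun n y hy => ?_⟩
  rcases lt_or_ge (φ y) (dl n) with h2 | h2
  · exact Or.inl h2
  · right
    by_cases hc : y ∈ C
    · filter_upwards [h1 n y hc h2] with x hx
      rw [hx, ind_mem hc]
    · filter_upwards [h0 n y hy h2 hc] with x hx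
      rw [hx, ind_not hc]

theorem appr_of_chi (hφ : ContDiff ℝ ∞ φ) {χ : ℕ → E → ℝ} (X : Chi F φ C χ) :
    Appr F φ C (fun n y => χ n y * psi (dl n) (φ y)) := by
  refine ⟨fun n => (X.smooth n).mul ((contDiff_psi _).comp hφ), fun n y hy => ?_⟩
  rcases X.eq n y hy with h2 | h2
  · have h3 : ∀ᶠ x in 𝓝 y, φ x < dl n := hφ.continuous.continuousAt.eventually (gt_mem_nhds h2)
    filter_upwards [h3] with x hx
    rw [psi_zero (dl_pos n) hx.le, mul_zero, mul_zero]
  · filter_upwards [h2] with x hx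
    rw [hx]

theorem exists_appr (h : FBMS F) (hφ : ContDiff ℝ ∞ φ) (P : Piece F φ C) : ∃ G : ℕ → E → ℝ, Appr F φ C G := by
  obtain ⟨χ, X⟩ := exists_Chi h hφ P
  exact ⟨_, appr_of_chi hφ X⟩

/-- `χ n θ(φ) = 1_C θ(φ)` on the surface if `θ` vanishes for `t ≤ dl n`. -/
theorem chi_mul {χ : ℕ → E → ℝ} (X : Chi F φ C χ) (n : ℕ) {y : E} (hy : y ∈ surf F) {c : ℝ}
    (hc : φ y < dl n → c = 0) : χ n y * c = ind C y * c := by
  rcases X.eq n y hy with h2 | h2
  · rw [hc h2, mul_zero, mul_zero]
  · rw [h2.self_of_nhds]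

variable {G G' : ℕ → E → ℝ}

theorem appr_val (A : Appr F φ C G) (n : ℕ) {y : E} (hy : y ∈ surf F) : G n y = ind C y * psi (dl n) (φ y) :=
  (A.eq n y hy).self_of_nhds

private theorem pd_psi (hφ : ContDiff ℝ ∞ φ) (c : ℝ) (n : ℕ) (i : Fin 3) :
    pd i (fun x => c * psi (dl n) (φ x)) = fun x => c * (p1 (dl n) (φ x) * pd i φ x) := by
  have h1 := pd_const_mul i c (f := fun x => psi (dl n) (φ x)) ((contDiff_psi (dl n)).comp hφ)
  rw [h1]
  funext x
  have h2 := pd_comp i (psi (dl n)) (contDiff_psi _) hφ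
  rw [h2, deriv_psi (dl_pos n).ne']

private theorem pd_p1 (hφ : ContDiff ℝ ∞ φ) (c : ℝ) (n : ℕ) (i j : Fin 3) :
    pd i (fun x => c * (p1 (dl n) (φ x) * pd j φ x)) =
      fun x => c * (p2 (dl n) (φ x) * pd i φ x * pd j φ x + p1 (dl n) (φ x) * pd i (pd j φ) x) := by
  have hp : ContDiff ℝ ∞ (fun x => p1 (dl n) (φ x)) := (contDiff_p1 (dl n)).comp hφ
  have h1 := pd_const_mul i c (f := fun x => p1 (dl n) (φ x) * pd j φ x) (hp.mul (contDiff_pd j hφ))
  rw [h1]
  funext x
  have h2 := pd_comp i (p1 (dl n)) (contDiff_p1 _) hφ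
  rw [pd_mul i hp (contDiff_pd j hφ), h2, deriv_p1]

theorem appr_pd (hφ : ContDiff ℝ ∞ φ) (A : Appr F φ C G) (n : ℕ) {y : E} (hy : y ∈ surf F) (i : Fin 3) :
    pd i (G n) y = ind C y * (p1 (dl n) (φ y) * pd i φ y) := by
  rw [pd_congr i (A.eq n y hy), pd_psi hφ]

theorem appr_pd2 (hφ : ContDiff ℝ ∞ φ) (A : Appr F φ C G) (n : ℕ) {y : E} (hy : y ∈ surf F) (i j : Fin 3) :
    pd i (pd j (G n)) y =
      ind C y * (p2 (dl n) (φ y) * pd i φ y * pd j φ y + p1 (dl n) (φ y) * pd i (pd j φ) y) := by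
  have h1 : pd j (G n) =ᶠ[𝓝 y] fun x => ind C y * (p1 (dl n) (φ x) * pd j φ x) := by
    have h2 := (A.eq n y hy).eventuallyEq_nhds
    filter_upwards [h2] with x hx
    rw [pd_congr j hx, pd_psi hφ]
  rw [pd_congr i h1, pd_p1 hφ]

theorem appr_tang (hφ : ContDiff ℝ ∞ φ) (A : Appr F φ C G) (n : ℕ) {y : E} (hy : y ∈ surf F) (f : E → ℝ) :
    tang F (G n) f y = ind C y * (p1 (dl n) (φ y) * tang F φ f y) := by
  unfold tang
  simp only [appr_pd hφ A n hy, Fin.sum_univ_three]
  ring

theorem appr_lap (hφ : ContDiff ℝ ∞ φ) (A : Appr F φ C G) (n : ℕ) {y : E} (hy : y ∈ surf F) :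
    lap F (G n) y = ind C y * (p2 (dl n) (φ y) * tang F φ φ y + p1 (dl n) (φ y) * lap F φ y) := by
  unfold lap tang
  simp only [appr_pd2 hφ A n hy, Fin.sum_univ_three]
  ring

theorem appr_nd (hφ : ContDiff ℝ ∞ φ) (A : Appr F φ C G) (n : ℕ) {y : E} (hy : y ∈ surf F) :
    nd (G n) y = ind C y * (p1 (dl n) (φ y) * nd φ y) := by
  unfold nd
  simp only [appr_pd hφ A n hy, Fin.sum_univ_three]
  ring

private theorem bs {y : E} (hy : y ∈ bdry F) : y ∈ surf F := ⟨hy.1.le, hy.2⟩

/-- `psi (dl n) t → t` for `t > 0`. -/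
theorem psi_lim {t : ℝ} (ht : 0 ≤ t) : Tendsto (fun n => psi (dl n) t) atTop (𝓝 t) := by
  rw [tendsto_iff_dist_tendsto_zero]
  refine squeeze_zero (fun n => dist_nonneg) (fun n => ?_) (by simpa using dl_tendsto.const_mul 2)
  rw [Real.dist_eq]
  have := psi_near (t := t) (dl_pos n)
  rwa [max_eq_left ht] at this

theorem p1_lim {t : ℝ} (ht : 0 < t) : Tendsto (fun n => p1 (dl n) t) atTop (𝓝 1) := by
  refine tendsto_const_nhds.congr' ?_
  filter_upwards [dl_lt ht] with n hn
  exact (p1_one (dl_pos n) hn.le).symm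

theorem p2_lim {t : ℝ} (ht : 0 < t) : ∀ᶠ n in atTop, p2 (dl n) t = 0 := by
  filter_upwards [dl_lt ht] with n hn
  exact p2_zero_right (dl_pos n) hn

/-- A bound for the integrands: continuous functions are bounded on the surface. -/
theorem bdd (h : FBMS F) {k : E → ℝ} (hk : Continuous k) : ∃ K : ℝ, 0 ≤ K ∧ ∀ y ∈ surf F, |k y| ≤ K := by
  obtain ⟨K, hK⟩ := (isCompact_surf h).exists_bound_of_continuousOn hk.continuousOn
  refine ⟨max K 0, le_max_right _ _, fun y hy => ?_⟩
  exact (hK y hy).trans (le_max_left _ _)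

/-- Convergence of integrals of `1_C a_n(φ) k` (bounded, pointwise convergent where `φ > 0`). -/
theorem area_lim (h : FBMS F) (P : Piece F φ C) (T : ℕ → E → ℝ) (a : ℕ → ℝ → ℝ) (b : ℝ → ℝ) {k : E → ℝ}
    (hk : Continuous k) (hφ : Continuous φ) (K : ℝ) (hT : ∀ n, ContinuousOn (T n) (surf F))
    (hTe : ∀ n, ∀ y ∈ surf F, T n y = ind C y * (a n (φ y) * k y))
    (hb : ∀ n, ∀ y ∈ surf F, 0 < φ y → |a n (φ y)| ≤ K)
    (hl : ∀ t : ℝ, 0 < t → Tendsto (fun n => a n t) atTop (𝓝 (b t))) :
    Tendsto (fun n => area F (T n)) atTop (𝓝 (area F (fun y => ind C y * (b (φ y) * k y)))) := by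
  obtain ⟨M, hM0, hM⟩ := bdd h hk
  refine area_tendsto h T _ hT (|K| * M) (fun n y hy => ?_) fun y hy => ?_
  · rw [hTe n y hy]
    by_cases hc : y ∈ C
    · rw [ind_mem hc, one_mul, abs_mul]
      exact mul_le_mul ((hb n y hy (P.sub y hc).2).trans (le_abs_self K)) (hM y hy) (abs_nonneg _) (abs_nonneg _)
    · rw [ind_not hc, zero_mul, abs_zero]
      positivity
  · have e : (fun n => T n y) = fun n => ind C y * (a n (φ y) * k y) := funext fun n => hTe n y hy
    rw [e]
    by_cases hc : y ∈ C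
    · exact ((hl _ (P.sub y hc).2).mul_const _).const_mul _
    · simp only [ind_not hc, zero_mul]
      exact tendsto_const_nhds

theorem len_lim (h : FBMS F) (P : Piece F φ C) (T : ℕ → E → ℝ) (a : ℕ → ℝ → ℝ) (b : ℝ → ℝ) {k : E → ℝ}
    (hk : Continuous k) (hφ : Continuous φ) (K : ℝ) (hT : ∀ n, ContinuousOn (T n) (bdry F))
    (hTe : ∀ n, ∀ y ∈ bdry F, T n y = ind C y * (a n (φ y) * k y))
    (hb : ∀ n, ∀ y ∈ bdry F, 0 < φ y → |a n (φ y)| ≤ K)
    (hl : ∀ t : ℝ, 0 < t → Tendsto (fun n => a n t) atTop (𝓝 (b t))) :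
    Tendsto (fun n => len F (T n)) atTop (𝓝 (len F (fun y => ind C y * (b (φ y) * k y)))) := by
  obtain ⟨M, hM0, hM⟩ := bdd h hk
  refine len_tendsto h T _ hT (|K| * M) (fun n y hy => ?_) fun y hy => ?_
  · rw [hTe n y hy]
    by_cases hc : y ∈ C
    · rw [ind_mem hc, one_mul, abs_mul]
      exact mul_le_mul ((hb n y hy (P.sub y hc).2).trans (le_abs_self K)) (hM y (bs hy)) (abs_nonneg _)
        (abs_nonneg _)
    · rw [ind_not hc, zero_mul, abs_zero]
      positivity
  · have e : (fun n => T n y) = fun n => ind C y * (a n (φ y) * k y) := funext fun n => hTe n y hy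
    rw [e]
    by_cases hc : y ∈ C
    · exact ((hl _ (P.sub y hc).2).mul_const _).const_mul _
    · simp only [ind_not hc, zero_mul]
      exact tendsto_const_nhds

private theorem psi_bd (h : FBMS F) (hφ : Continuous φ) : ∃ K : ℝ, 0 ≤ K ∧
    ∀ n, ∀ y ∈ surf F, 0 < φ y → |psi (dl n) (φ y)| ≤ K := by
  obtain ⟨K, hK0, hK⟩ := bdd h hφ
  refine ⟨K, hK0, fun n y hy h0 => ?_⟩
  rw [abs_of_nonneg (psi_nonneg (dl_pos n))]
  exact (psi_le (dl_pos n) h0.le).trans ((le_abs_self _).trans (hK y hy))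

/-- The limit of `Q (G n) f`. -/
theorem lim_Q (h : FBMS F) (N : Null F φ) (P : Piece F φ C) (A : Appr F φ C G) (hf : ContDiff ℝ ∞ f) :
    Tendsto (fun n => Q F (G n) f) atTop (𝓝 (BB F φ C f)) := by
  have hφ := N.smooth
  obtain ⟨K, hK0, hK⟩ := psi_bd h hφ.continuous
  have e : (fun n => Q F (G n) f) = fun n => -area F (fun y => G n y * (lap F f y + normA F y * f y)) +
      len F (fun y => G n y * (nd f y - f y)) := by
    funext n
    rw [Q_comm, Q_green h hf (A.smooth n)]
  rw [e]
  have k1 : Continuous fun y => lap F f y + normA F y * f y :=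
    (contDiff_lap h.smooth hf).continuous.add ((contDiff_normA h.smooth).continuous.mul hf.continuous)
  have k2 : Continuous fun y => nd f y - f y := (contDiff_nd hf).continuous.sub hf.continuous
  have l1 := area_lim h P (fun n y => G n y * (lap F f y + normA F y * f y)) (fun n t => psi (dl n) t)
    (fun t => t) k1 hφ.continuous K (fun n => ((A.smooth n).continuous.mul k1).continuousOn)
    (fun n y hy => by simp only [appr_val A n hy]; ring) (fun n y hy h0 => hK n y hy h0)
    (fun t ht => psi_lim ht.le)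
  have l2 := len_lim h P (fun n y => G n y * (nd f y - f y)) (fun n t => psi (dl n) t)
    (fun t => t) k2 hφ.continuous K (fun n => ((A.smooth n).continuous.mul k2).continuousOn)
    (fun n y hy => by simp only [appr_val A n (bs hy)]; ring) (fun n y hy h0 => hK n y (bs hy) h0)
    (fun t ht => psi_lim ht.le)
  have l3 := l1.neg.add l2
  have e2 : BB F φ C f = -area F (fun y => ind C y * (φ y * (lap F f y + normA F y * f y))) +
      len F (fun y => ind C y * (φ y * (nd f y - f y))) := by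
    unfold BB
    simp only [mul_assoc]
  rw [e2]
  exact l3

private theorem comb_lim {t : ℝ} (ht : 0 < t) :
    Tendsto (fun n => psi (dl n) t - t * p1 (dl n) t) atTop (𝓝 0) := by
  have h1 := (psi_lim ht.le).sub ((p1_lim ht).const_mul t)
  simpa using h1

private theorem comb_bd (h : FBMS F) (hφ : Continuous φ) : ∃ K : ℝ, 0 ≤ K ∧
    ∀ n, ∀ y ∈ surf F, 0 < φ y → |psi (dl n) (φ y) - φ y * p1 (dl n) (φ y)| ≤ K := by
  obtain ⟨K, hK0, hK⟩ := bdd h hφ
  refine ⟨2 * K, by positivity, fun n y hy h0 => ?_⟩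
  have h1 := psi_le (dl_pos n) h0.le
  have h2 := psi_nonneg (t := φ y) (dl_pos n)
  have h3 : 0 ≤ φ y * p1 (dl n) (φ y) := mul_nonneg h0.le p1_nonneg
  have h4 : φ y * p1 (dl n) (φ y) ≤ φ y := mul_le_of_le_one_right h0.le p1_le
  have h5 := (le_abs_self (φ y)).trans (hK y hy)
  rw [abs_le]
  constructor <;> linarith

/-- The defect: `Q (G n) (G n) → 0`. -/
theorem lim_self (h : FBMS F) (N : Null F φ) (P : Piece F φ C) (A : Appr F φ C G) :
    Tendsto (fun n => Q F (G n) (G n)) atTop (𝓝 0) := by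
  have hφ := N.smooth
  have hF := h.smooth
  obtain ⟨K, hK0, hK⟩ := psi_bd h hφ.continuous
  obtain ⟨K', hK0', hK'⟩ := comb_bd h hφ.continuous
  obtain ⟨M, hM0, hM⟩ := psi_p2_bound
  have ct : Continuous (tang F φ φ) := (contDiff_tang hF hφ hφ).continuous
  have ca : Continuous (normA F) := (contDiff_normA hF).continuous
  have cp : ∀ n, Continuous fun y => psi (dl n) (φ y) := fun n => ((contDiff_psi (dl n)).comp hφ).continuous
  -- the three integrals
  have cG : ∀ n, Continuous (G n) := fun n => (A.smooth n).continuous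
  have cl : ∀ n, Continuous (lap F (G n)) := fun n => (contDiff_lap hF (A.smooth n)).continuous
  have cn : ∀ n, Continuous (nd (G n)) := fun n => (contDiff_nd (A.smooth n)).continuous
  have e : (fun n => Q F (G n) (G n)) = fun n => -area F (fun y => G n y * (lap F (G n) y + normA F y * G n y)) +
      len F (fun y => G n y * (nd (G n) y - G n y)) := by
    funext n
    rw [Q_green h (A.smooth n) (A.smooth n)]
  rw [e]
  have l1 : Tendsto (fun n => area F (fun y => G n y * (lap F (G n) y + normA F y * G n y))) atTop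
      (𝓝 (area F fun _ => 0)) := by
    obtain ⟨T0, hT00, hT0⟩ := bdd h ct
    obtain ⟨N0, hN00, hN0⟩ := bdd h ca
    refine area_tendsto h _ _ (fun n => ((cG n).mul ((cl n).add (ca.mul (cG n)))).continuousOn)
      (M * T0 + K * (K' * N0)) (fun n y hy => ?_) fun y hy => ?_
    · by_cases hc : y ∈ C
      · have h0 := (P.sub y hc).2
        have e1 : G n y * (lap F (G n) y + normA F y * G n y) = psi (dl n) (φ y) * p2 (dl n) (φ y) * tang F φ φ y +
            psi (dl n) (φ y) * ((psi (dl n) (φ y) - φ y * p1 (dl n) (φ y)) * normA F y) := by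
          rw [appr_lap hφ A n hy, appr_val A n hy, ind_mem hc, N.lap y hy]
          ring
        rw [e1]
        refine (abs_add_le _ _).trans (add_le_add ?_ ?_)
        · rw [abs_mul, abs_of_nonneg (hM (dl n) (dl_pos n) (φ y)).1]
          exact mul_le_mul (hM (dl n) (dl_pos n) (φ y)).2 (hT0 y hy) (abs_nonneg _) hM0
        · rw [abs_mul, abs_mul]
          exact mul_le_mul (hK n y hy h0) (mul_le_mul (hK' n y hy h0) (hN0 y hy) (abs_nonneg _) hK0')
            (by positivity) hK0
      · rw [appr_val A n hy, ind_not hc, zero_mul, zero_mul, abs_zero]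
        positivity
    · by_cases hc : y ∈ C
      · have h0 := (P.sub y hc).2
        have e1 : ∀ᶠ n in atTop, psi (dl n) (φ y) * ((psi (dl n) (φ y) - φ y * p1 (dl n) (φ y)) * normA F y) =
            G n y * (lap F (G n) y + normA F y * G n y) := by
          filter_upwards [p2_lim h0] with n hn
          rw [appr_lap hφ A n hy, appr_val A n hy, ind_mem hc, N.lap y hy, hn]
          ring
        refine Tendsto.congr' e1 ?_
        have h1 := (psi_lim h0.le).mul ((comb_lim h0).mul_const (normA F y))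
        simpa using h1
      · have e1 : (fun n => G n y * (lap F (G n) y + normA F y * G n y)) = fun _ => 0 := by
          funext n
          rw [appr_val A n hy, ind_not hc, zero_mul, zero_mul]
        rw [e1]
        exact tendsto_const_nhds
  have l2 : Tendsto (fun n => len F (fun y => G n y * (nd (G n) y - G n y))) atTop (𝓝 (len F fun _ => 0)) := by
    refine len_tendsto h _ _ (fun n => ((cG n).mul ((cn n).sub (cG n))).continuousOn)
      (K * K') (fun n y hy => ?_) fun y hy => ?_
    · by_cases hc : y ∈ C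
      · have h0 := (P.sub y hc).2
        have e1 : G n y * (nd (G n) y - G n y) =
            psi (dl n) (φ y) * -(psi (dl n) (φ y) - φ y * p1 (dl n) (φ y)) := by
          rw [appr_nd hφ A n (bs hy), appr_val A n (bs hy), ind_mem hc, N.nd y hy]
          ring
        rw [e1, abs_mul, abs_neg]
        exact mul_le_mul (hK n y (bs hy) h0) (hK' n y (bs hy) h0) (abs_nonneg _) hK0
      · rw [appr_val A n (bs hy), ind_not hc, zero_mul, zero_mul, abs_zero]
        positivity
    · by_cases hc : y ∈ C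
      · have h0 := (P.sub y hc).2
        have e1 : ∀ n, psi (dl n) (φ y) * -(psi (dl n) (φ y) - φ y * p1 (dl n) (φ y)) =
            G n y * (nd (G n) y - G n y) := by
          intro n
          rw [appr_nd hφ A n (bs hy), appr_val A n (bs hy), ind_mem hc, N.nd y hy]
          ring
        refine Tendsto.congr e1 ?_
        have h1 := (psi_lim h0.le).mul (comb_lim h0).neg
        simpa using h1
      · have e1 : (fun n => G n y * (nd (G n) y - G n y)) = fun _ => 0 := by
          funext n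
          rw [appr_val A n (bs hy), ind_not hc, zero_mul, zero_mul]
        rw [e1]
        exact tendsto_const_nhds
  have l3 := l1.neg.add l2
  have z1 : area F (fun _ => 0) = 0 := by simp [area]
  have z2 : len F (fun _ => 0) = 0 := by simp [len]
  rw [z1, z2, neg_zero, add_zero] at l3
  exact l3

/-- Disjoint pieces are orthogonal. -/
theorem Q_cross (h : FBMS F) (hφ : ContDiff ℝ ∞ φ) (A : Appr F φ C G) (A' : Appr F φ C' G') (hd : Disjoint C C')
    (n : ℕ) : Q F (G n) (G' n) = 0 := by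
  rw [Q_green h (A.smooth n) (A'.smooth n)]
  have hi : ∀ y, ind C y * ind C' y = 0 := by
    intro y
    by_cases hc : y ∈ C
    · rw [ind_not (Set.disjoint_left.1 hd hc), mul_zero]
    · rw [ind_not hc, zero_mul]
  have e1 : area F (fun y => G' n y * (lap F (G n) y + normA F y * G n y)) = area F (fun _ => 0) := by
    refine area_congr (fun y hy => ?_) h
    rw [appr_lap hφ A n hy, appr_val A n hy, appr_val A' n hy]
    linear_combination (psi (dl n) (φ y) * (p2 (dl n) (φ y) * tang F φ φ y + p1 (dl n) (φ y) * lap F φ y +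
      normA F y * psi (dl n) (φ y))) * hi y
  have e2 : len F (fun y => G' n y * (nd (G n) y - G n y)) = len F (fun _ => 0) := by
    refine len_congr (fun y hy => ?_) h
    rw [appr_nd hφ A n (bs hy), appr_val A n (bs hy), appr_val A' n (bs hy)]
    linear_combination (psi (dl n) (φ y) * (p1 (dl n) (φ y) * nd φ y - psi (dl n) (φ y))) * hi y
  have z1 : area F (fun _ => 0) = 0 := by simp [area]
  have z2 : len F (fun _ => 0) = 0 := by simp [len]
  rw [e1, e2, z1, z2]
  ring

/-- The flux through the part `φ = 0` of the boundary of `C`. -/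
theorem bb_flux (h : FBMS F) (N : Null F φ) (P : Piece F φ C) (hf : ContDiff ℝ ∞ f) :
    Tendsto (fun n : ℕ => area F (fun y => ind C y * p2 (dl n) (φ y) * tang F φ φ y * f y)) atTop
      (𝓝 (-BB F φ C f)) := by
  have hφ := N.smooth
  have hF := h.smooth
  obtain ⟨χ, X⟩ := exists_Chi h hφ P
  have A := appr_of_chi hφ X
  obtain ⟨K', hK0', hK'⟩ := comb_bd h hφ.continuous
  have ca : Continuous (normA F) := (contDiff_normA hF).continuous
  have cf := hf.continuous
  have ct : Continuous (tang F φ φ) := (contDiff_tang hF hφ hφ).continuous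
  have cχ : ∀ n, Continuous (χ n) := fun n => (X.smooth n).continuous
  have c2 : ∀ n, Continuous fun y => p2 (dl n) (φ y) := fun n => ((contDiff_p2 (dl n)).comp hφ).continuous
  have c1 : ∀ n, Continuous fun y => p1 (dl n) (φ y) := fun n => ((contDiff_p1 (dl n)).comp hφ).continuous
  have c0 : ∀ n, Continuous fun y => psi (dl n) (φ y) := fun n => ((contDiff_psi (dl n)).comp hφ).continuous
  have cU : ∀ n, Continuous fun y => χ n y * (p2 (dl n) (φ y) * (tang F φ φ y * f y)) :=
    fun n => (cχ n).mul ((c2 n).mul (ct.mul cf))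
  have cV : ∀ n, Continuous fun y => χ n y * ((psi (dl n) (φ y) - φ y * p1 (dl n) (φ y)) * (normA F y * f y)) :=
    fun n => (cχ n).mul (((c0 n).sub (hφ.continuous.mul (c1 n))).mul (ca.mul cf))
  have cW : ∀ n, Continuous fun y => χ n y * ((psi (dl n) (φ y) - φ y * p1 (dl n) (φ y)) * f y) :=
    fun n => (cχ n).mul (((c0 n).sub (hφ.continuous.mul (c1 n))).mul cf)
  have z0 : ∀ n (y : E), φ y < dl n → psi (dl n) (φ y) - φ y * p1 (dl n) (φ y) = 0 := by
    intro n y hy
    rw [psi_zero (dl_pos n) hy.le, p1_zero (dl_pos n) hy.le]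
    ring
  have hV : ∀ n, ∀ y ∈ surf F, χ n y * ((psi (dl n) (φ y) - φ y * p1 (dl n) (φ y)) * (normA F y * f y)) =
      ind C y * ((psi (dl n) (φ y) - φ y * p1 (dl n) (φ y)) * (normA F y * f y)) := by
    intro n y hy
    exact chi_mul X n hy fun hlt => by rw [z0 n y hlt, zero_mul]
  have hW : ∀ n, ∀ y ∈ surf F, χ n y * ((psi (dl n) (φ y) - φ y * p1 (dl n) (φ y)) * f y) =
      ind C y * ((psi (dl n) (φ y) - φ y * p1 (dl n) (φ y)) * f y) := by
    intro n y hy
    exact chi_mul X n hy fun hlt => by rw [z0 n y hlt, zero_mul]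
  have hU : ∀ n, ∀ y ∈ surf F, χ n y * (p2 (dl n) (φ y) * (tang F φ φ y * f y)) =
      ind C y * (p2 (dl n) (φ y) * (tang F φ φ y * f y)) := by
    intro n y hy
    exact chi_mul X n hy fun hlt => by rw [p2_zero_left (dl_pos n) hlt, zero_mul]
  have e : ∀ n, area F (fun y => ind C y * p2 (dl n) (φ y) * tang F φ φ y * f y) =
      -Q F (fun y => χ n y * psi (dl n) (φ y)) f -
        area F (fun y => χ n y * ((psi (dl n) (φ y) - φ y * p1 (dl n) (φ y)) * (normA F y * f y))) -
        len F (fun y => χ n y * ((psi (dl n) (φ y) - φ y * p1 (dl n) (φ y)) * f y)) := by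
    intro n
    have q1 := Q_green h (A.smooth n) hf
    have q2 : area F (fun y => f y * (lap F (fun y => χ n y * psi (dl n) (φ y)) y +
        normA F y * (χ n y * psi (dl n) (φ y)))) =
        area F (fun y => χ n y * (p2 (dl n) (φ y) * (tang F φ φ y * f y))) +
        area F (fun y => χ n y * ((psi (dl n) (φ y) - φ y * p1 (dl n) (φ y)) * (normA F y * f y))) := by
      rw [← area_add h (cU n).continuousOn (cV n).continuousOn]
      refine area_congr (fun y hy => ?_) h
      rw [appr_lap hφ A n hy, N.lap y hy, hU n y hy, hV n y hy]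
      have a1 : χ n y * psi (dl n) (φ y) = ind C y * psi (dl n) (φ y) := appr_val A n hy
      rw [a1]
      ring
    have q3 : len F (fun y => f y * (nd (fun y => χ n y * psi (dl n) (φ y)) y - χ n y * psi (dl n) (φ y))) =
        -1 * len F (fun y => χ n y * ((psi (dl n) (φ y) - φ y * p1 (dl n) (φ y)) * f y)) := by
      rw [← len_const_mul]
      refine len_congr (fun y hy => ?_) h
      rw [appr_nd hφ A n (bs hy), N.nd y hy, hW n y (bs hy)]
      have a1 : χ n y * psi (dl n) (φ y) = ind C y * psi (dl n) (φ y) := appr_val A n (bs hy)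
      rw [a1]
      ring
    have q4 : area F (fun y => ind C y * p2 (dl n) (φ y) * tang F φ φ y * f y) =
        area F (fun y => χ n y * (p2 (dl n) (φ y) * (tang F φ φ y * f y))) := by
      refine area_congr (fun y hy => ?_) h
      rw [hU n y hy]
      ring
    rw [q1, q2, q3, q4]
    ring
  have l0 := lim_Q h N P A hf
  have l1 := area_lim h P (fun n y => χ n y * ((psi (dl n) (φ y) - φ y * p1 (dl n) (φ y)) * (normA F y * f y)))
    (fun n t => psi (dl n) t - t * p1 (dl n) t) (fun _ => 0) (k := fun y => normA F y * f y) (ca.mul cf) hφ.continuous K'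
    (fun n => (cV n).continuousOn) hV (fun n y hy h0 => hK' n y hy h0) (fun t ht => comb_lim ht)
  have l2 := len_lim h P (fun n y => χ n y * ((psi (dl n) (φ y) - φ y * p1 (dl n) (φ y)) * f y))
    (fun n t => psi (dl n) t - t * p1 (dl n) t) (fun _ => 0) cf hφ.continuous K'
    (fun n => (cW n).continuousOn) (fun n y hy => hW n y (bs hy)) (fun n y hy h0 => hK' n y (bs hy) h0)
    (fun t ht => comb_lim ht)
  have l3 := (l0.neg.sub l1).sub l2
  have e2 : (fun y => ind C y * ((0 : ℝ) * (normA F y * f y))) = fun _ => 0 := by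
    funext y
    ring
  have e3 : (fun y => ind C y * ((0 : ℝ) * f y)) = fun _ => 0 := by
    funext y
    ring
  have z1 : area F (fun _ => 0) = 0 := by simp [area]
  have z2 : len F (fun _ => 0) = 0 := by simp [len]
  simp only [e2, e3, z1, z2, sub_zero] at l3
  refine l3.congr fun n => ?_
  exact (e n).symm

/-- `BB` by first derivatives. -/
theorem bb_grad (h : FBMS F) (N : Null F φ) (P : Piece F φ C) (hf : ContDiff ℝ ∞ f) :
    BB F φ C f = area F (fun y => ind C y * (tang F φ f y - normA F y * (φ y * f y))) -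
      len F (fun y => ind C y * (φ y * f y)) := by
  have hφ := N.smooth
  have hF := h.smooth
  obtain ⟨G, A⟩ := exists_appr h hφ P
  refine tendsto_nhds_unique (lim_Q h N P A hf) ?_
  obtain ⟨K, hK0, hK⟩ := psi_bd h hφ.continuous
  have ca : Continuous (normA F) := (contDiff_normA hF).continuous
  have cf := hf.continuous
  have cG : ∀ n, Continuous (G n) := fun n => (A.smooth n).continuous
  have ct : ∀ n, Continuous (tang F (G n) f) := fun n => (contDiff_tang hF (A.smooth n) hf).continuous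
  obtain ⟨T0, hT00, hT0⟩ := bdd h (contDiff_tang hF hφ hf).continuous
  obtain ⟨N0, hN00, hN0⟩ := bdd h (ca.mul cf)
  obtain ⟨F0, hF00, hF0⟩ := bdd h cf
  have l1 : Tendsto (fun n => area F (fun y => tang F (G n) f y - normA F y * (G n y * f y))) atTop
      (𝓝 (area F (fun y => ind C y * (tang F φ f y - normA F y * (φ y * f y))))) := by
    have e1 : ∀ n, ∀ y ∈ surf F, tang F (G n) f y - normA F y * (G n y * f y) =
        ind C y * (p1 (dl n) (φ y) * tang F φ f y - psi (dl n) (φ y) * (normA F y * f y)) := by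
      intro n y hy
      rw [appr_tang hφ A n hy, appr_val A n hy]
      ring
    refine area_tendsto h _ _ (fun n => ((ct n).sub (ca.mul ((cG n).mul cf))).continuousOn)
      (T0 + K * N0) (fun n y hy => ?_) fun y hy => ?_
    · rw [e1 n y hy]
      by_cases hc : y ∈ C
      · have h0 := (P.sub y hc).2
        rw [ind_mem hc, one_mul]
        refine (abs_sub _ _).trans (add_le_add ?_ ?_)
        · rw [abs_mul, abs_of_nonneg p1_nonneg]
          calc _ ≤ 1 * T0 := mul_le_mul p1_le (hT0 y hy) (abs_nonneg _) zero_le_one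
            _ = T0 := one_mul _
        · rw [abs_mul]
          exact mul_le_mul (hK n y hy h0) (hN0 y hy) (abs_nonneg _) hK0
      · rw [ind_not hc, zero_mul, abs_zero]
        positivity
    · have e2 : (fun n => tang F (G n) f y - normA F y * (G n y * f y)) = fun n =>
          ind C y * (p1 (dl n) (φ y) * tang F φ f y - psi (dl n) (φ y) * (normA F y * f y)) :=
        funext fun n => e1 n y hy
      rw [e2]
      by_cases hc : y ∈ C
      · have h0 := (P.sub y hc).2
        have h1 := (((p1_lim h0).mul_const (tang F φ f y)).sub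
          ((psi_lim h0.le).mul_const (normA F y * f y))).const_mul (ind C y)
        have e3 : ind C y * (1 * tang F φ f y - φ y * (normA F y * f y)) =
            ind C y * (tang F φ f y - normA F y * (φ y * f y)) := by ring
        rw [e3] at h1
        exact h1
      · simp only [ind_not hc, zero_mul]
        exact tendsto_const_nhds
  have l2 : Tendsto (fun n => len F (fun y => G n y * f y)) atTop (𝓝 (len F (fun y => ind C y * (φ y * f y)))) :=
    len_lim h P (fun n y => G n y * f y) (fun n t => psi (dl n) t)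
      (fun t => t) cf hφ.continuous K (fun n => ((cG n).mul cf).continuousOn)
      (fun n y hy => by simp only [appr_val A n (bs hy)]; ring) (fun n y hy h0 => hK n y (bs hy) h0)
      (fun t ht => psi_lim ht.le)
  exact l1.sub l2

end Pool.Agent.Helper99.RS
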