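import Pool.Agent.Helper94.FS.Star
import Pool.Agent.Helper94.FS.NegGen
import Pool.Agent.Helper94.FB.SMP

/-!
# RS: definitions (rotation symmetry and the Morse index)

* `Null F φ`: `φ` is smooth and in the kernel of the second variation (`Δ φ = -|A| ^ 2 φ`, conormal derivative `φ`).
* `Piece F φ C`: `C` is a relatively open and closed part of `{φ > 0}` in the surface.
* `ind C`: the indicator function. `BB F φ C f`: the limit of `Q (φ 1_C) f`.
* `rot t`: the rotation by the angle `t` about the third axis.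
* `Wnd A`: the set `A ⊆ ℂ` contains a loop which has no continuous logarithm with equal end points (a loop around `0`).
-/

set_option autoImplicit false

open MeasureTheory Filter
open scoped ContDiff Topology

namespace Pool.Agent.Helper99.RS

open Pool.Agent.Helper78.FB

structure Null (F φ : E → ℝ) : Prop where
  smooth : ContDiff ℝ ∞ φ
  lap : ∀ y ∈ surf F, lap F φ y = -normA F y * φ y
  nd : ∀ y ∈ bdry F, nd φ y = φ y

structure Piece (F φ : E → ℝ) (C : Set E) : Prop where
  sub : ∀ y ∈ C, y ∈ surf F ∧ 0 < φ y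
  opn : ∀ y ∈ C, ∃ ε : ℝ, 0 < ε ∧ ∀ x ∈ surf F, x ∈ Metric.ball y ε → x ∈ C
  cls : ∀ y ∈ surf F, 0 < φ y → y ∉ C → ∃ ε : ℝ, 0 < ε ∧ ∀ x ∈ surf F, x ∈ Metric.ball y ε → x ∉ C

open Classical in
noncomputable def ind (C : Set E) (y : E) : ℝ := if y ∈ C then 1 else 0

noncomputable def BB (F φ : E → ℝ) (C : Set E) (f : E → ℝ) : ℝ :=
  -area F (fun y => ind C y * φ y * (lap F f y + normA F y * f y)) +
    len F (fun y => ind C y * φ y * (nd f y - f y))

noncomputable def rot (t : ℝ) (y : E) : E :=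
  !₂[Real.cos t * y 0 - Real.sin t * y 1, Real.sin t * y 0 + Real.cos t * y 1, y 2]

def Wnd (A : Set ℂ) : Prop :=
  ∃ L : C(unitInterval, ℂ), (∀ t, Complex.exp (L t) ∈ A) ∧ Complex.exp (L 0) = Complex.exp (L 1) ∧ L 0 ≠ L 1

theorem null_ww {F : E → ℝ} (h : FBMS F) (a b : Fin 3) : Null F (ww F a b) :=
  ⟨contDiff_ww h.smooth a b, fun y hy => by rw [lap_ww h hy], fun y hy => nd_ww h hy a b⟩

end Pool.Agent.Helper99.RS
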