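import Pool.Agent.Helper99.RS.UMain
import Pool.Agent.Helper94.RS.Main3
import Pool.Agent.Helper23.RS.End

/-!
# RS: index at most four and a rotation of order at least three: the critical catenoid
-/

set_option autoImplicit false

open scoped ContDiff Topology

namespace Pool.Agent.Helper99.RS

open Pool.Agent.Helper78.FB

variable {F : E → ℝ} {n : ℕ}

theorem rev_main3 (h : FBMS F) (hconn : IsPreconnected (inn F)) (hflat : ∃ y ∈ surf F, normA F y ≠ 0)
    (hindex : IndexLeFour F) (hn : 3 ≤ n) (hF : ∀ y, F (rot (2 * Real.pi / n) y) = F y) :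
    ∀ y ∈ surf F, ww F 0 1 y = 0 :=
  rev_of_uc h hconn hflat hindex (uc h hconn (null_ww h 0 1)) hn hF

end Pool.Agent.Helper99.RS
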