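import Pool.Agent.Helper99.RS.UTools

/-!
# RS: integration by parts on a cell
-/

set_option autoImplicit false

open MeasureTheory Filter
open scoped ContDiff Topology Manifold

namespace Pool.Agent.Helper99.RS

open Pool.Agent.Helper78.FB

variable {F φ f g : E → ℝ} {O : Set E}

theorem contDiff_rh (h : FBMS F) (hφ : ContDiff ℝ ∞ φ) : ContDiff ℝ ∞ (rh F φ) :=
  (hφ.pow 2).add (contDiff_tang h.smooth hφ hφ)

theorem contDiff_gr (h : FBMS F) (hφ : ContDiff ℝ ∞ φ) (i : Fin 3) : ContDiff ℝ ∞ (gr F φ i) := by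
  unfold gr
  exact (contDiff_pd i hφ).sub
    ((ContDiff.sum fun j _ => (contDiff_pd j h.smooth).mul (contDiff_pd j hφ)).mul (contDiff_pd i h.smooth))

/-- `tang(ρ, ρ) ≤ K ρ` for `ρ = rh F φ`. -/
theorem rh_grad (h : FBMS F) (hφ : ContDiff ℝ ∞ φ) :
    ∃ K : ℝ, 0 ≤ K ∧ ∀ y ∈ surf F, tang F (rh F φ) (rh F φ) y ≤ K * rh F φ y := by
  have hF := h.smooth
  obtain ⟨U, hU, hsub, hsq⟩ := h.unit
  have cg := fun i => contDiff_gr h hφ i
  have hρ : ∀ y ∈ U, rh F φ y = φ y * φ y + gr F φ 0 y * gr F φ 0 y + gr F φ 1 y * gr F φ 1 y + gr F φ 2 y * gr F φ 2 y := by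
    intro y hy
    have h1 := hsq y hy
    unfold rh tang gr
    simp only [Fin.sum_univ_three] at h1 ⊢
    linear_combination (-(pd 0 F y * pd 0 φ y + pd 1 F y * pd 1 φ y + pd 2 F y * pd 2 φ y) ^ 2) * h1
  obtain ⟨M, hM0, hM⟩ := bdd h (k := fun y => ∑ k : Fin 3, (pd k φ y ^ 2 + pd k (gr F φ 0) y ^ 2 +
      pd k (gr F φ 1) y ^ 2 + pd k (gr F φ 2) y ^ 2)) (continuous_finsetSum _ fun k _ =>
        ((((contDiff_pd k hφ).continuous.pow 2).add ((contDiff_pd k (cg 0)).continuous.pow 2)).add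
          ((contDiff_pd k (cg 1)).continuous.pow 2)).add ((contDiff_pd k (cg 2)).continuous.pow 2))
  refine ⟨4 * M, by positivity, fun y hy => ?_⟩
  have hyU := hsub hy
  have e0 : rh F φ =ᶠ[𝓝 y] fun x => φ x * φ x + gr F φ 0 x * gr F φ 0 x + gr F φ 1 x * gr F φ 1 x +
      gr F φ 2 x * gr F φ 2 x := by
    filter_upwards [hU.mem_nhds hyU] with x hx
    exact hρ x hx
  have e1 : ∀ k, pd k (rh F φ) y = 2 * (φ y * pd k φ y + gr F φ 0 y * pd k (gr F φ 0) y +
      gr F φ 1 y * pd k (gr F φ 1) y + gr F φ 2 y * pd k (gr F φ 2) y) := by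
    intro k
    rw [pd_congr k e0, pd_add k (((hφ.mul hφ).add ((cg 0).mul (cg 0))).add ((cg 1).mul (cg 1))) ((cg 2).mul (cg 2)),
      pd_add k ((hφ.mul hφ).add ((cg 0).mul (cg 0))) ((cg 1).mul (cg 1)), pd_add k (hφ.mul hφ) ((cg 0).mul (cg 0)),
      pd_mul k hφ hφ, pd_mul k (cg 0) (cg 0), pd_mul k (cg 1) (cg 1), pd_mul k (cg 2) (cg 2)]
    ring
  have e2 : ∀ k, pd k (rh F φ) y ^ 2 ≤ 4 * rh F φ y * (pd k φ y ^ 2 + pd k (gr F φ 0) y ^ 2 +
      pd k (gr F φ 1) y ^ 2 + pd k (gr F φ 2) y ^ 2) := by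
    intro k
    rw [e1 k, hρ y hyU]
    have c := cs4 (φ y) (gr F φ 0 y) (gr F φ 1 y) (gr F φ 2 y) (pd k φ y) (pd k (gr F φ 0) y) (pd k (gr F φ 1) y)
      (pd k (gr F φ 2) y)
    nlinarith [c]
  have e3 : tang F (rh F φ) (rh F φ) y ≤ ∑ k, pd k (rh F φ) y ^ 2 := by
    unfold tang
    have := mul_self_nonneg (∑ i, pd i F y * pd i (rh F φ) y)
    have e4 : ∑ i, pd i (rh F φ) y * pd i (rh F φ) y = ∑ k, pd k (rh F φ) y ^ 2 :=
      Finset.sum_congr rfl fun i _ => (sq _).symm
    rw [e4]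
    linarith
  have hr := rh_nonneg h (φ := φ) hy
  have hMy := (le_abs_self _).trans (hM y hy)
  simp only [Fin.sum_univ_three] at e3 hMy
  have := e2 0
  have := e2 1
  have := e2 2
  nlinarith [mul_le_mul_of_nonneg_left hMy (show (0 : ℝ) ≤ 4 * rh F φ y by positivity)]
where
  cs4 (a b c d p q r s : ℝ) : (a * p + b * q + c * r + d * s) ^ 2 ≤
      (a * a + b * b + c * c + d * d) * (p ^ 2 + q ^ 2 + r ^ 2 + s ^ 2) := by
    nlinarith [sq_nonneg (a * q - b * p), sq_nonneg (a * r - c * p), sq_nonneg (a * s - d * p), sq_nonneg (b * r - c * q),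
      sq_nonneg (b * s - d * q), sq_nonneg (c * s - d * r)]

/-- A smooth cut-off function on a cell. -/
private theorem exists_cut (h : FBMS F) (hφ : ContDiff ℝ ∞ φ) (hO : Cell F φ O) {T : Set E} (hT : IsClosed T)
    (hTb : T ⊆ Metric.ball (0 : E) 1) {δ : ℝ} (hδ : 0 < δ) : ∃ G : E → ℝ, ContDiff ℝ ∞ G ∧
      ∀ y ∈ surf F, y ∈ T → G =ᶠ[𝓝 y] fun x => ind O y * p1 δ (rh F φ x) := by
  have hsc : IsClosed (surf F) := (isCompact_surf h).isClosed
  have cρ := (contDiff_rh h hφ).continuous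
  have hA : IsClosed {y | y ∈ O ∧ y ∈ T ∧ δ ≤ rh F φ y} := by
    rw [← closure_subset_iff_isClosed]
    intro y hy
    have h1 : y ∈ surf F := closure_minimal (fun x hx => hO.sub hx.1) hsc hy
    have h2 : δ ≤ rh F φ y := closure_minimal (fun x hx => hx.2.2) (isClosed_le continuous_const cρ) hy
    have h3 : y ∈ T := closure_minimal (fun x hx => hx.2.1) hT hy
    refine ⟨?_, h3, h2⟩
    by_contra hyO
    have hyi : y ∈ inn F := ⟨by simpa using hTb h3, h1.2⟩
    have h4 := hO.sing y hyi (closure_mono (fun x hx => hx.1) hy) hyO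
    unfold rh at h2
    rw [h4.1, h4.2] at h2
    linarith
  have hB : IsClosed {y | y ∈ surf F ∧ y ∉ O ∧ y ∈ T ∧ δ ≤ rh F φ y} := by
    rw [← closure_subset_iff_isClosed]
    intro y hy
    have h1 : y ∈ surf F := closure_minimal (fun x hx => hx.1) hsc hy
    have h2 : δ ≤ rh F φ y := closure_minimal (fun x hx => hx.2.2.2) (isClosed_le continuous_const cρ) hy
    have h3 : y ∈ T := closure_minimal (fun x hx => hx.2.2.1) hT hy
    refine ⟨h1, ?_, h3, h2⟩
    intro hyO
    obtain ⟨ε, hε, h4⟩ := hO.opn y hyO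
    obtain ⟨x, hx, hx'⟩ := Metric.mem_closure_iff.1 hy ε hε
    exact hx.2.1 (h4 x hx.1 (by rwa [Metric.mem_ball, dist_comm]))
  have hd : Disjoint {y | y ∈ surf F ∧ y ∉ O ∧ y ∈ T ∧ δ ≤ rh F φ y} {y | y ∈ O ∧ y ∈ T ∧ δ ≤ rh F φ y} := by
    rw [Set.disjoint_left]
    intro y h1 h2
    exact h1.2.1 h2.1
  obtain ⟨χ, h0, h1, -⟩ := exists_contMDiffMap_zero_one_nhds_of_isClosed (n := (⊤ : ℕ∞)) 𝓘(ℝ, E) hB hA hd
  refine ⟨fun y => χ y * p1 δ (rh F φ y),
    (contMDiff_iff_contDiff.1 χ.contMDiff).mul ((contDiff_p1 δ).comp (contDiff_rh h hφ)), ?_⟩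
  intro y hy hyT
  rcases lt_or_ge (rh F φ y) δ with hyc | hyc
  · filter_upwards [cρ.continuousAt.eventually (gt_mem_nhds hyc)] with x hx
    rw [p1_zero hδ (le_of_lt hx), mul_zero, mul_zero]
  · by_cases hyO : y ∈ O
    · have h3 : ∀ᶠ x in 𝓝 y, χ x = 1 := h1.filter_mono
        (nhds_le_nhdsSet (show y ∈ {y | y ∈ O ∧ y ∈ T ∧ δ ≤ rh F φ y} from ⟨hyO, hyT, hyc⟩))
      filter_upwards [h3] with x hx
      rw [hx, ind_mem hyO]
    · have h3 : ∀ᶠ x in 𝓝 y, χ x = 0 := h0.filter_mono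
        (nhds_le_nhdsSet (show y ∈ {y | y ∈ surf F ∧ y ∉ O ∧ y ∈ T ∧ δ ≤ rh F φ y} from ⟨hy, hyO, hyT, hyc⟩))
      filter_upwards [h3] with x hx
      rw [hx, ind_not hyO]

theorem ibp (h : FBMS F) (hφ : ContDiff ℝ ∞ φ) (hO : Cell F φ O) (hf : ContDiff ℝ ∞ f)
    (hg : ContDiff ℝ ∞ g) (hs : tsupport f ⊆ Metric.ball (0 : E) 1) {K : ℝ}
    (hK : ∀ y ∈ surf F, f y ^ 2 * tang F g g y ≤ K * (φ y ^ 2 + tang F φ φ y) ^ 2) :
    area F (fun y => ind O y * (tang F f g y + f y * lap F g y)) = 0 := by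
  have hF := h.smooth
  have sρ := contDiff_rh h hφ
  have hTc : IsClosed (tsupport f) := isClosed_tsupport f
  choose G hG hGe using fun n : ℕ => exists_cut h hφ hO hTc hs (dl_pos n)
  -- the identity for every `n`
  have sGf : ∀ n, ContDiff ℝ ∞ fun y => G n y * f y := fun n => (hG n).mul hf
  obtain ⟨T, hT⟩ : ∃ T : ℕ → E → ℝ, T = fun n y => (G n y * f y) * lap F g y + tang F g (fun y => G n y * f y) y :=
    ⟨_, rfl⟩
  have cT : ∀ n, ContinuousOn (T n) (surf F) := fun n => by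
    rw [hT]
    exact (((sGf n).mul (contDiff_lap hF hg)).add (contDiff_tang hF hg (sGf n))).continuous.continuousOn
  have hT0 : ∀ n, area F (T n) = 0 := by
    intro n
    have h1 := green h hg (sGf n)
    rw [hT]
    rw [h1]
    have h2 : len F (fun y => G n y * f y * nd g y) = len F (fun _ => 0) := by
      refine len_congr (fun y hy => ?_) h
      have h3 : f y = 0 := by
        by_contra hne
        have h4 : y ∈ Metric.ball (0 : E) 1 := hs (subset_tsupport f hne)
        rw [mem_ball_zero_iff, hy.1] at h4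
        exact lt_irrefl _ h4
      rw [h3]
      ring
    rw [h2]
    simp [len]
  have hTe : ∀ n, ∀ y ∈ surf F, T n y = ind O y * (p1 (dl n) (rh F φ y) * (tang F f g y + f y * lap F g y) +
      p2 (dl n) (rh F φ y) * (f y * tang F g (rh F φ) y)) := by
    intro n y hy
    rw [hT]
    show (G n y * f y) * lap F g y + tang F g (fun y => G n y * f y) y = _
    by_cases hyT : y ∈ tsupport f
    · have e1 := hGe n y hy hyT
      have e2 : ∀ i, pd i (fun y => G n y * f y) y =
          ind O y * (p2 (dl n) (rh F φ y) * pd i (rh F φ) y * f y + p1 (dl n) (rh F φ y) * pd i f y) := by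
        intro i
        have sp : ContDiff ℝ ∞ fun x => p1 (dl n) (rh F φ x) := (contDiff_p1 (dl n)).comp sρ
        have e4 : pd i (G n) y = ind O y * (p2 (dl n) (rh F φ y) * pd i (rh F φ) y) := by
          rw [pd_congr i e1, pd_const_mul i (ind O y) sp, pd_comp i (p1 (dl n)) (contDiff_p1 _) sρ, deriv_p1]
        rw [pd_mul i (hG n) hf]
        show pd i (G n) y * f y + G n y * pd i f y = _
        rw [e4, e1.self_of_nhds]
        ring
      have e3 : tang F g (fun y => G n y * f y) y = ind O y * (p2 (dl n) (rh F φ y) * f y * tang F g (rh F φ) y +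
          p1 (dl n) (rh F φ y) * tang F f g y) := by
        conv_lhs => unfold tang
        simp only [e2, Fin.sum_univ_three]
        conv_rhs => unfold tang
        simp only [Fin.sum_univ_three]
        ring
      rw [e3, e1.self_of_nhds]
      ring
    · have e1 : f =ᶠ[𝓝 y] fun _ => 0 := notMem_tsupport_iff_eventuallyEq.1 hyT
      have e2 : (fun y => G n y * f y) =ᶠ[𝓝 y] fun _ => 0 := by
        filter_upwards [e1] with x hx
        rw [hx, mul_zero]
      have e3 : f y = 0 := e1.self_of_nhds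
      rw [tang_zero_right (pd_of_ev e2), tang_zero_left (pd_of_ev e1), e3]
      ring
  -- bounds
  obtain ⟨K2, hK20, hK2⟩ := rh_grad h hφ
  obtain ⟨R, hR0, hR⟩ := bdd h (k := rh F φ) sρ.continuous
  obtain ⟨M, hM0, hM⟩ := bdd h (k := fun y => tang F f g y + f y * lap F g y)
    ((contDiff_tang hF hf hg).add (hf.mul (contDiff_lap hF hg))).continuous
  obtain ⟨D, hD0, hD⟩ := dsg1_bound
  obtain ⟨C, hC⟩ : ∃ C, C = Real.sqrt (|K| * K2 * R) := ⟨_, rfl⟩
  have hC0 : 0 ≤ C := by rw [hC]; exact Real.sqrt_nonneg _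
  have hft : ∀ y ∈ surf F, |f y * tang F g (rh F φ) y| ≤ C * rh F φ y := by
    intro y hy
    have hr := rh_nonneg h (φ := φ) hy
    have q1 := cs h g (rh F φ) hy
    have q2 := hK y hy
    have q3 := hK2 y hy
    have q4 := (le_abs_self _).trans (hR y hy)
    have q5 : f y ^ 2 * tang F g g y ≤ |K| * rh F φ y ^ 2 :=
      q2.trans (mul_le_mul_of_nonneg_right (le_abs_self K) (sq_nonneg _))
    have q6 : (f y * tang F g (rh F φ) y) ^ 2 ≤ (C * rh F φ y) ^ 2 := by
      have r1 : (f y * tang F g (rh F φ) y) ^ 2 ≤ f y ^ 2 * tang F g g y * tang F (rh F φ) (rh F φ) y := by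
        rw [mul_pow]
        have := mul_le_mul_of_nonneg_left q1 (sq_nonneg (f y))
        linarith
      have r2 : f y ^ 2 * tang F g g y * tang F (rh F φ) (rh F φ) y ≤ |K| * rh F φ y ^ 2 * (K2 * rh F φ y) :=
        mul_le_mul q5 q3 (tang_nonneg h _ hy) (by positivity)
      have r3 : |K| * rh F φ y ^ 2 * (K2 * rh F φ y) ≤ |K| * rh F φ y ^ 2 * (K2 * R) := by
        gcongr
      have r4 : C ^ 2 = |K| * K2 * R := by
        rw [hC]
        exact Real.sq_sqrt (by positivity)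
      calc _ ≤ _ := r1
        _ ≤ _ := r2
        _ ≤ _ := r3
        _ = (C * rh F φ y) ^ 2 := by rw [mul_pow, r4]; ring
    exact abs_le_of_sq_le_sq q6 (by positivity)
  have hp2 : ∀ n, ∀ y ∈ surf F, |p2 (dl n) (rh F φ y) * (f y * tang F g (rh F φ) y)| ≤ 2 * D * C := by
    intro n y hy
    have hr := rh_nonneg h (φ := φ) hy
    have hdn := dl_pos n
    rcases lt_or_ge (2 * dl n) (rh F φ y) with h1 | h1
    · rw [p2_zero_right hdn h1, zero_mul, abs_zero]
      positivity
    · rw [abs_mul, abs_of_nonneg (p2_nonneg hdn)]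
      have h2 : p2 (dl n) (rh F φ y) ≤ D / dl n := by
        unfold p2
        exact div_le_div_of_nonneg_right (hD _) hdn.le
      have h3 : |f y * tang F g (rh F φ) y| ≤ C * (2 * dl n) :=
        (hft y hy).trans (mul_le_mul_of_nonneg_left h1 hC0)
      calc _ ≤ D / dl n * (C * (2 * dl n)) := mul_le_mul h2 h3 (abs_nonneg _) (by positivity)
        _ = 2 * D * C := by field_simp
  have hlim := area_tendsto h T (fun y => ind O y * (tang F f g y + f y * lap F g y)) cT (M + 2 * D * C)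
    (fun n y hy => ?_) fun y hy => ?_
  · have h1 : Tendsto (fun n => area F (T n)) atTop (𝓝 0) := by
      simp only [hT0]
      exact tendsto_const_nhds
    exact tendsto_nhds_unique hlim h1
  · rw [hTe n y hy]
    have h1 : |p1 (dl n) (rh F φ y) * (tang F f g y + f y * lap F g y)| ≤ M := by
      rw [abs_mul, abs_of_nonneg p1_nonneg]
      calc _ ≤ 1 * M := mul_le_mul p1_le (hM y hy) (abs_nonneg _) zero_le_one
        _ = M := one_mul M
    have h2 := hp2 n y hy
    have h3 := abs_add_le (p1 (dl n) (rh F φ y) * (tang F f g y + f y * lap F g y))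
      (p2 (dl n) (rh F φ y) * (f y * tang F g (rh F φ) y))
    rcases ind_cases O y with h0 | h0
    · rw [h0, zero_mul, abs_zero]
      positivity
    · rw [h0, one_mul]
      linarith
  · have e : (fun n => T n y) = fun n => ind O y * (p1 (dl n) (rh F φ y) * (tang F f g y + f y * lap F g y) +
        p2 (dl n) (rh F φ y) * (f y * tang F g (rh F φ) y)) := funext fun n => hTe n y hy
    rw [e]
    by_cases hyO : y ∈ O
    · have hpos : 0 < rh F φ y := hO.pos y hyO
      have l1 := (p1_lim hpos).mul_const (tang F f g y + f y * lap F g y)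
      have l2 : Tendsto (fun n => p2 (dl n) (rh F φ y) * (f y * tang F g (rh F φ) y)) atTop (𝓝 0) := by
        refine tendsto_const_nhds.congr' ?_
        filter_upwards [p2_lim hpos] with n hn
        rw [hn, zero_mul]
      have l3 := (l1.add l2).const_mul (ind O y)
      simpa using l3
    · simp only [ind_not hyO, zero_mul]
      exact tendsto_const_nhds

end Pool.Agent.Helper99.RS
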