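import Pool.Agent.Helper99.RS.Zero
import Pool.Agent.Helper78.FB.Dense

/-!
# RS: at most four pieces of the same sign (Lemma A)

`c_zero`: if the Morse index is at most four and `∑ c_i BB (C i) (zz k) = 0` for `k < 4`, for disjoint nonempty pieces `C i`, at least
two of them, then `c = 0`. The local statements `reg` and `lc_nodal` are hypotheses here.
-/

set_option autoImplicit false

open MeasureTheory Filter
open scoped ContDiff Topology

namespace Pool.Agent.Helper99.RS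

open Pool.Agent.Helper78.FB

variable {F φ f : E → ℝ}

def RegStat (F φ : E → ℝ) : Prop :=
  ∀ (C : Set E), Piece F φ C → ∀ om : E → ℝ, ContDiff ℝ ∞ om → (∀ y, 0 ≤ om y) →
    (∀ y ∈ surf F, y ∈ tsupport om → y ∈ closure C → φ y = 0 → tang F φ φ y = 0) → BB F φ C om = 0

def LcNodal (F φ : E → ℝ) : Prop :=
  ∀ z ∈ inn F, φ z = 0 → tang F φ φ z ≠ 0 → ∃ V : Set E, IsOpen V ∧ z ∈ V ∧
    IsPreconnected ({y | y ∈ surf F ∧ 0 < φ y} ∩ V)

/-- A bump function at `z` with support in an open set. -/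
theorem exists_bump {z : E} {V : Set E} (hV : IsOpen V) (hz : z ∈ V) : ∃ om : E → ℝ, ContDiff ℝ ∞ om ∧
    (∀ y, 0 ≤ om y) ∧ (∀ᶠ y in 𝓝 z, 1 ≤ om y) ∧ tsupport om ⊆ V := by
  obtain ⟨r, hr, hb⟩ := Metric.isOpen_iff.1 hV z hz
  let b : ContDiffBump z := ⟨r / 4, r / 2, by positivity, by linarith⟩
  refine ⟨b, b.contDiff, fun y => b.nonneg, ?_, ?_⟩
  · filter_upwards [b.eventuallyEq_one] with y hy
    rw [hy]
    exact le_rfl
  · rw [b.tsupport_eq]
    refine (Metric.closedBall_subset_ball ?_).trans hb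
    show r / 2 < r
    linarith

theorem piece_meets_inn (h : FBMS F) {C : Set E} (P : Piece F φ C) (hne : C.Nonempty) : (C ∩ inn F).Nonempty := by
  obtain ⟨y, hy⟩ := hne
  obtain ⟨ε, hε, h1⟩ := P.opn y hy
  obtain ⟨x, hx, hxy⟩ := Metric.mem_closure_iff.1 (surf_subset h (P.sub y hy).1) ε hε
  exact ⟨x, h1 x ⟨hx.1.le, hx.2⟩ (by rwa [Metric.mem_ball, dist_comm]), hx⟩

/-- A piece which is not everything has a zero of `φ` in its closure, in the interior of the surface. -/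
theorem exists_bd (h : FBMS F) (hconn : IsPreconnected (inn F)) (hφ : Continuous φ) {C : Set E} (P : Piece F φ C)
    (hne : C.Nonempty) {x : E} (hx : x ∈ inn F) (hxC : x ∉ C) : ∃ z ∈ inn F, z ∈ closure C ∧ φ z = 0 := by
  by_contra hcon
  push Not at hcon
  -- `C ∩ inn` and `inn \ C` are relatively open
  have hop : ∀ y ∈ inn F, y ∉ C → ∃ ε : ℝ, 0 < ε ∧ ∀ x ∈ inn F, x ∈ Metric.ball y ε → x ∉ C := by
    intro y hy hyC
    by_cases h0 : 0 < φ y
    · obtain ⟨ε, hε, h1⟩ := P.cls y ⟨hy.1.le, hy.2⟩ h0 hyC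
      exact ⟨ε, hε, fun x hx hb => h1 x ⟨hx.1.le, hx.2⟩ hb⟩
    · rcases lt_or_eq_of_le (not_lt.1 h0) with h1 | h1
      · obtain ⟨ε, hε, h2⟩ := Metric.eventually_nhds_iff_ball.1 (hφ.continuousAt.eventually (gt_mem_nhds h1))
        exact ⟨ε, hε, fun x hx hb hC => absurd (P.sub x hC).2 (not_lt.2 (h2 x hb).le)⟩
      · have h2 : y ∉ closure C := fun h3 => hcon y hy h3 h1
        obtain ⟨ε, hε, h3⟩ := Metric.isOpen_iff.1 isClosed_closure.isOpen_compl y h2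
        exact ⟨ε, hε, fun x hx hb hC => h3 hb (subset_closure hC)⟩
  choose ε1 hε1 h1 using fun (y : {y : E // y ∈ C}) => P.opn y.1 y.2
  choose ε2 hε2 h2 using fun (y : {y : E // y ∈ inn F ∧ y ∉ C}) => hop y.1 y.2.1 y.2.2
  obtain ⟨w, hw, hwi⟩ := piece_meets_inn h P hne
  obtain ⟨y, hy, hy1, hy2⟩ := hconn (⋃ y, Metric.ball y.1 (ε1 y)) (⋃ y, Metric.ball y.1 (ε2 y))
    (isOpen_iUnion fun _ => Metric.isOpen_ball) (isOpen_iUnion fun _ => Metric.isOpen_ball) (fun y hy => by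
      by_cases hyC : y ∈ C
      · left
        exact Set.mem_iUnion.2 ⟨⟨y, hyC⟩, Metric.mem_ball_self (hε1 _)⟩
      · right
        exact Set.mem_iUnion.2 ⟨⟨y, hy, hyC⟩, Metric.mem_ball_self (hε2 _)⟩)
    ⟨w, hwi, Set.mem_iUnion.2 ⟨⟨w, hw⟩, Metric.mem_ball_self (hε1 _)⟩⟩
    ⟨x, hx, Set.mem_iUnion.2 ⟨⟨x, hx, hxC⟩, Metric.mem_ball_self (hε2 _)⟩⟩
  obtain ⟨a, ha⟩ := Set.mem_iUnion.1 hy1
  obtain ⟨b, hb⟩ := Set.mem_iUnion.1 hy2
  exact h2 b y hy hb (h1 a y ⟨hy.1.le, hy.2⟩ ha)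

theorem c_zero (h : FBMS F) (hconn : IsPreconnected (inn F)) (hflat : ∃ y ∈ surf F, normA F y ≠ 0)
    (hindex : IndexLeFour F) (N : Null F φ) (hreg : RegStat F φ) (hlc : LcNodal F φ)
    {m : ℕ} (C : Fin m → Set E) (hP : ∀ i, Piece F φ (C i)) (hd : ∀ i j, i ≠ j → Disjoint (C i) (C j))
    (hne : ∀ i, (C i).Nonempty) (hm : 2 ≤ m)
    (c : Fin m → ℝ) (hc : ∀ k : Fin 4, ∑ i, c i * BB F φ (C i) (zz k) = 0) : c = 0 := by
  have hφ := N.smooth
  funext i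
  -- another piece
  obtain ⟨j, hj⟩ : ∃ j : Fin m, j ≠ i := by
    have : Nontrivial (Fin m) := Fin.nontrivial_iff_two_le.2 hm
    exact exists_ne i
  obtain ⟨x, hxj, hxi⟩ := piece_meets_inn h (hP j) (hne j)
  obtain ⟨z, hz, hzc, hz0⟩ := exists_bd h hconn hφ.continuous (hP i) (hne i) hxi
    (Set.disjoint_left.1 (hd j i hj) hxj)
  -- a bump function supported in the open ball
  obtain ⟨om, ho, hn, h1, hs⟩ := exists_bump (z := z) (V := Metric.ball (0 : E) 1) Metric.isOpen_ball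
    (by rw [mem_ball_zero_iff]; exact hz.1)
  have hB : BB F φ (C i) om ≠ 0 := smp h N (hP i) ho hn ⟨hz.1.le, hz.2⟩ hzc hz0 h1
  -- a regular point
  obtain ⟨y, hy, hys, hyc, hy0, hyt⟩ : ∃ y ∈ surf F, y ∈ tsupport om ∧ y ∈ closure (C i) ∧ φ y = 0 ∧
      tang F φ φ y ≠ 0 := by
    by_contra hcon
    push Not at hcon
    exact hB (hreg (C i) (hP i) om ho hn hcon)
  have hyi : y ∈ inn F := by
    have h2 := hs hys
    rw [mem_ball_zero_iff] at h2
    exact ⟨h2, hy.2⟩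
  obtain ⟨V, hV, hyV, hpc⟩ := hlc y hyi hy0 hyt
  -- `C i` contains `{φ > 0} ∩ V`
  have hsub : ∀ w ∈ surf F, 0 < φ w → w ∈ V → w ∈ C i := by
    intro w hw hw0 hwV
    by_contra hwC
    choose ε1 hε1 h1 using fun (y : {y : E // y ∈ C i}) => (hP i).opn y.1 y.2
    choose ε2 hε2 h2 using fun (y : {y : E // y ∈ surf F ∧ 0 < φ y ∧ y ∉ C i}) =>
      (hP i).cls y.1 y.2.1 y.2.2.1 y.2.2.2
    obtain ⟨u, hu, huy⟩ : ∃ u ∈ C i, u ∈ V := by
      obtain ⟨r, hr, hb⟩ := Metric.isOpen_iff.1 hV y hyV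
      obtain ⟨u, hu, huy⟩ := Metric.mem_closure_iff.1 hyc r hr
      exact ⟨u, hu, hb (by rwa [Metric.mem_ball, dist_comm])⟩
    obtain ⟨v, hv, hv1, hv2⟩ := hpc (⋃ y, Metric.ball y.1 (ε1 y)) (⋃ y, Metric.ball y.1 (ε2 y))
      (isOpen_iUnion fun _ => Metric.isOpen_ball) (isOpen_iUnion fun _ => Metric.isOpen_ball) (fun v hv => by
        by_cases hvC : v ∈ C i
        · left
          exact Set.mem_iUnion.2 ⟨⟨v, hvC⟩, Metric.mem_ball_self (hε1 _)⟩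
        · right
          exact Set.mem_iUnion.2 ⟨⟨v, hv.1.1, hv.1.2, hvC⟩, Metric.mem_ball_self (hε2 _)⟩)
      ⟨u, ⟨((hP i).sub u hu), huy⟩, Set.mem_iUnion.2 ⟨⟨u, hu⟩, Metric.mem_ball_self (hε1 _)⟩⟩
      ⟨w, ⟨⟨hw, hw0⟩, hwV⟩, Set.mem_iUnion.2 ⟨⟨w, hw, hw0, hwC⟩, Metric.mem_ball_self (hε2 _)⟩⟩
    obtain ⟨a, ha⟩ := Set.mem_iUnion.1 hv1
    obtain ⟨b, hb⟩ := Set.mem_iUnion.1 hv2
    exact h2 b v hv.1.1 hb (h1 a v hv.1.1 ha)
  -- a bump function at the regular point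
  obtain ⟨ob, ho', hn', h1', hs'⟩ := exists_bump hV hyV
  have hB' : BB F φ (C i) ob ≠ 0 := smp h N (hP i) ho' hn' hy hyc hy0 h1'
  have hz' := bb_sum_zero h hflat hindex N C hP hd c hc ho'
  rw [Finset.sum_eq_single i] at hz'
  · exact (mul_eq_zero.1 hz').resolve_right hB'
  · intro k _ hk
    have h3 : BB F φ (C k) ob = 0 := bb_zero_of_supp (C k) fun v hv hvs =>
      Set.disjoint_left.1 (hd k i hk) hv (hsub v ((hP k).sub v hv).1 ((hP k).sub v hv).2 (hs' hvs))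
    rw [h3, mul_zero]
  · intro hi
    exact absurd (Finset.mem_univ i) hi

/-- No five disjoint nonempty pieces. -/
theorem no_five (h : FBMS F) (hconn : IsPreconnected (inn F)) (hflat : ∃ y ∈ surf F, normA F y ≠ 0)
    (hindex : IndexLeFour F) (N : Null F φ) (hreg : RegStat F φ) (hlc : LcNodal F φ)
    (C : Fin 5 → Set E) (hP : ∀ i, Piece F φ (C i)) (hd : ∀ i j, i ≠ j → Disjoint (C i) (C j))
    (hne : ∀ i, (C i).Nonempty) : False := by
  have h1 : ∃ c : Fin 5 → ℝ, c ≠ 0 ∧ (Matrix.of fun (k : Fin 4) i => BB F φ (C i) (zz k)).mulVec c = 0 := by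
    have h2 : LinearMap.ker (Matrix.toLin' (Matrix.of fun (k : Fin 4) (i : Fin 5) => BB F φ (C i) (zz k))) ≠ ⊥ :=
      LinearMap.ker_ne_bot_of_finrank_lt (by simp)
    obtain ⟨c, hc, hc0⟩ := (Submodule.ne_bot_iff _).1 h2
    exact ⟨c, hc0, by rwa [LinearMap.mem_ker, Matrix.toLin'_apply] at hc⟩
  obtain ⟨c, hc, h2⟩ := h1
  refine hc (c_zero h hconn hflat hindex N hreg hlc C hP hd hne (by norm_num) c fun k => ?_)
  have h3 := congrFun h2 k
  simp only [Matrix.mulVec, dotProduct, Matrix.of_apply, Pi.zero_apply] at h3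
  rw [← h3]
  exact Finset.sum_congr rfl fun i _ => mul_comm _ _

end Pool.Agent.Helper99.RS
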