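import Pool.Agent.Helper99.RS.LemA
import Pool.Agent.Helper83.RS.Rev
import Pool.Agent.Helper86.RS.LC
import Pool.Agent.Helper14.RS.Reg
import Pool.Agent.Helper94.RS.North

/-!
# RS: index at most four and a rotation of order at least five: surface of revolution
-/

set_option autoImplicit false

open scoped ContDiff Topology

namespace Pool.Agent.Helper99.RS

open Pool.Agent.Helper78.FB

variable {F φ : E → ℝ} {n : ℕ}

theorem regStat (h : FBMS F) (N : Null F φ) : RegStat F φ := fun _ P _ ho hn hs => reg h N P ho hn hs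

theorem lcNodal (h : FBMS F) (hφ : ContDiff ℝ ∞ φ) : LcNodal F φ := fun z hz h0 hr => by
  obtain ⟨V, hV, hzV, -, hc⟩ := lc_nodal h hφ hz h0 hr one_pos
  exact ⟨V, hV, hzV, hc⟩

theorem lcon (h : FBMS F) : LCon F := fun z hz e he => lc h hz he

theorem noFive (h : FBMS F) (hconn : IsPreconnected (inn F)) (hflat : ∃ y ∈ surf F, normA F y ≠ 0)
    (hindex : IndexLeFour F) (N : Null F φ) : NoFive F φ := fun C hP hne hd =>
  no_five h hconn hflat hindex N (regStat h N) (lcNodal h N.smooth) C hP hd hne

theorem north_of (h : FBMS F) (hconn : IsPreconnected (inn F)) (hflat : ∃ y ∈ surf F, normA F y ≠ 0)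
    (hindex : IndexLeFour F) : North F := fun hw => by
  refine north h (fun y hy => ?_) (fun y hy => ne_zero_of_index h hconn hflat hindex hy) hw
  rcases exists_sign h hconn hflat hindex with h1 | h1
  · exact (h1 y hy).ne'
  · exact (h1 y hy).ne

theorem main5 (h : FBMS F) (hconn : IsPreconnected (inn F)) (hflat : ∃ y ∈ surf F, normA F y ≠ 0)
    (hindex : IndexLeFour F) (hn : 5 ≤ n) (hF : ∀ y, F (rot (2 * Real.pi / n) y) = F y) :
    ∀ y ∈ surf F, ww F 0 1 y = 0 :=
  rev_of h hconn hflat hindex hn hF (lcon h) (noFive h hconn hflat hindex (null_ww h 0 1))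
    (noFive h hconn hflat hindex (null_neg (null_ww h 0 1))) (north_of h hconn hflat hindex)

end Pool.Agent.Helper99.RS
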