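import Pool.Agent.Helper99.RS.Cut

/-!
# RS: the strong maximum principle for `φ 1_C`

`smp`: if `z` is a point of the closure of `C` with `φ z = 0`, and `om ≥ 0` is smooth with `om ≥ 1` near `z`, then `BB F φ C om ≠ 0`:
otherwise `φ 1_C` is almost a supersolution near `z` (`Super`), so it vanishes near `z` (`zero_open`).
-/

set_option autoImplicit false

open MeasureTheory Filter
open scoped ContDiff Topology

namespace Pool.Agent.Helper99.RS

open Pool.Agent.Helper78.FB

variable {F φ f g om : E → ℝ} {C C' : Set E}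

private theorem bs {y : E} (hy : y ∈ bdry F) : y ∈ surf F := ⟨hy.1.le, hy.2⟩

theorem near_val (P : Piece F φ C) (n : ℕ) (y : E) : |ind C y * psi (dl n) (φ y) - ind C y * φ y| ≤ 2 * dl n := by
  by_cases hc : y ∈ C
  · have h0 := (P.sub y hc).2
    have h1 := psi_near (t := φ y) (dl_pos n)
    rw [max_eq_left h0.le] at h1
    rw [ind_mem hc, one_mul, one_mul]
    exact h1
  · rw [ind_not hc, zero_mul, zero_mul, sub_zero, abs_zero]
    have := dl_pos n
    positivity

theorem super_of_flux (h : FBMS F) (N : Null F φ) (P : Piece F φ C) (ho : ContDiff ℝ ∞ om) (hn : ∀ y, 0 ≤ om y)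
    (hB : BB F φ C om = 0) {D : Set E} (hD : ∀ y ∈ D, 1 ≤ om y) : Super F (fun y => ind C y * φ y) D := by
  have hφ := N.smooth
  have hF := h.smooth
  obtain ⟨χ, X⟩ := exists_Chi h hφ P
  have A := appr_of_chi hφ X
  have ct : Continuous (tang F φ φ) := (contDiff_tang hF hφ hφ).continuous
  have hU : ∀ n, ∀ y ∈ surf F, χ n y * (p2 (dl n) (φ y) * tang F φ φ y) =
      ind C y * (p2 (dl n) (φ y) * tang F φ φ y) := by
    intro n y hy
    exact chi_mul X n hy fun hlt => by rw [p2_zero_left (dl_pos n) hlt, zero_mul]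
  refine ⟨fun y _ => ?_, ?_, fun n y => χ n y * psi (dl n) (φ y), fun n y => χ n y * (p2 (dl n) (φ y) * tang F φ φ y),
    A.smooth, fun n => ?_, fun n y hy => ?_, fun n y hy _ => ?_, fun n y hy _ => ?_, fun ε hε => ?_, fun a r hr => ?_⟩
  · show 0 ≤ ind C y * φ y
    by_cases hc : y ∈ C
    · rw [ind_mem hc, one_mul]
      exact (P.sub y hc).2.le
    · rw [ind_not hc, zero_mul]
  · have hu : TendstoUniformlyOn (fun n y => χ n y * psi (dl n) (φ y)) (fun y => ind C y * φ y) atTop (surf F) := by
      rw [Metric.tendstoUniformlyOn_iff]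
      intro ε hε
      filter_upwards [dl_lt hε] with n hn' y hy
      have h1 : χ n y * psi (dl n) (φ y) = ind C y * psi (dl n) (φ y) := appr_val A n hy
      rw [dist_comm, Real.dist_eq, h1]
      exact lt_of_le_of_lt (near_val P n y) hn'
    exact hu.continuousOn (Frequently.of_forall fun n => (A.smooth n).continuous.continuousOn)
  · exact ((X.smooth n).continuous.mul (((contDiff_p2 (dl n)).comp hφ).continuous.mul ct)).continuousOn
  · show 0 ≤ χ n y * (p2 (dl n) (φ y) * tang F φ φ y)
    rw [hU n y hy]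
    exact mul_nonneg (ind_nonneg C y) (mul_nonneg (p2_nonneg (dl_pos n)) (tang_nonneg h φ hy))
  · show lap F (fun y => χ n y * psi (dl n) (φ y)) y ≤ χ n y * (p2 (dl n) (φ y) * tang F φ φ y)
    rw [hU n y hy, appr_lap hφ A n hy, N.lap y hy]
    by_cases hc : y ∈ C
    · have h0 := (P.sub y hc).2
      have h1 : 0 ≤ p1 (dl n) (φ y) * (normA F y * φ y) :=
        mul_nonneg p1_nonneg (mul_nonneg (normA_nonneg y) h0.le)
      rw [ind_mem hc]
      linarith
    · rw [ind_not hc, zero_mul, zero_mul]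
  · show 0 ≤ nd (fun y => χ n y * psi (dl n) (φ y)) y
    rw [appr_nd hφ A n (bs hy), N.nd y hy]
    by_cases hc : y ∈ C
    · have h0 := (P.sub y hc).2
      rw [ind_mem hc, one_mul]
      exact mul_nonneg p1_nonneg h0.le
    · rw [ind_not hc, zero_mul]
  · filter_upwards [dl_lt hε] with n hn' y hy
    have h1 : χ n y * psi (dl n) (φ y) = ind C y * psi (dl n) (φ y) := appr_val A n hy
    show |χ n y * psi (dl n) (φ y) - ind C y * φ y| ≤ ε
    rw [h1]
    exact (near_val P n y).trans hn'.le
  · refine ⟨om, ho, hn, fun y hy => hD y (hr hy), ?_⟩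
    have h1 := bb_flux h N P ho
    rw [hB, neg_zero] at h1
    refine h1.congr fun n => ?_
    refine area_congr (fun y hy => ?_) h
    show ind C y * p2 (dl n) (φ y) * tang F φ φ y * om y = om y * (χ n y * (p2 (dl n) (φ y) * tang F φ φ y))
    rw [hU n y hy]
    ring

theorem smp (h : FBMS F) (N : Null F φ) (P : Piece F φ C) (ho : ContDiff ℝ ∞ om) (hn : ∀ y, 0 ≤ om y) {z : E}
    (hz : z ∈ surf F) (hzc : z ∈ closure C) (h0 : φ z = 0) (h1 : ∀ᶠ y in 𝓝 z, 1 ≤ om y) : BB F φ C om ≠ 0 := by
  intro hB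
  have S := super_of_flux h N P ho hn hB (D := interior {y | 1 ≤ om y})
    fun y hy => (interior_subset hy : y ∈ {y | 1 ≤ om y})
  have hzD : z ∈ interior {y | 1 ≤ om y} := mem_interior_iff_mem_nhds.2 h1
  obtain ⟨r, hr, h2⟩ := zero_open h S isOpen_interior hz hzD (by rw [h0, mul_zero])
  obtain ⟨x, hx, hxz⟩ := Metric.mem_closure_iff.1 hzc r hr
  have h3 := h2 x (P.sub x hx).1 (by rwa [Metric.mem_ball, dist_comm])
  rw [ind_mem hx, one_mul] at h3
  exact (P.sub x hx).2.ne' h3

/-- `BB` vanishes if the piece does not meet the support of the function. -/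
theorem bb_zero_of_supp (C : Set E) (hf : ∀ y ∈ C, y ∉ tsupport f) : BB F φ C f = 0 := by
  have hz : ∀ y ∈ C, (∀ i, pd i f y = 0) ∧ (∀ i j, pd i (pd j f) y = 0) ∧ f y = 0 := by
    intro y hy
    have h1 : f =ᶠ[𝓝 y] fun _ => (0 : ℝ) := by
      have h2 := hf y hy
      rw [notMem_tsupport_iff_eventuallyEq] at h2
      exact h2
    have h3 : ∀ j, pd j f =ᶠ[𝓝 y] fun _ => (0 : ℝ) := by
      intro j
      filter_upwards [h1.eventuallyEq_nhds] with x hx
      rw [pd_congr j hx, pd_const]
    refine ⟨fun i => (h3 i).self_of_nhds, fun i j => ?_, h1.self_of_nhds⟩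
    rw [pd_congr i (h3 j), pd_const]
  have e1 : (fun y => ind C y * φ y * (lap F f y + normA F y * f y)) = fun _ => 0 := by
    funext y
    by_cases hc : y ∈ C
    · obtain ⟨h1, h2, h3⟩ := hz y hc
      have h4 : lap F f y = 0 := by
        unfold lap
        simp only [h2, mul_zero, Finset.sum_const_zero, sub_zero]
      rw [h4, h3]
      ring
    · rw [ind_not hc]
      ring
  have e2 : (fun y => ind C y * φ y * (nd f y - f y)) = fun _ => 0 := by
    funext y
    by_cases hc : y ∈ C
    · obtain ⟨h1, h2, h3⟩ := hz y hc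
      have h4 : nd f y = 0 := by
        unfold nd
        simp only [h1, mul_zero, Finset.sum_const_zero]
      rw [h4, h3]
      ring
    · rw [ind_not hc]
      ring
  unfold BB
  rw [e1, e2]
  simp [area, len]

end Pool.Agent.Helper99.RS
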