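import Pool.Agent.Helper99.RS.Ibp
import Pool.Agent.Helper86.RS.CarlId
import Pool.Agent.Helper77.RS.Conj

/-!
# RS: the Carleman inequality on a cell
-/

set_option autoImplicit false

open MeasureTheory Filter
open scoped ContDiff Topology

namespace Pool.Agent.Helper99.RS

open Pool.Agent.Helper78.FB

variable {F φ : E → ℝ} {O : Set E}

private theorem tsupp {f : E → ℝ} {S : Set E} (hS : IsClosed S) (hSb : S ⊆ Metric.ball (0 : E) 1)
    (hf : ∀ y, y ∉ S → f y = 0) : tsupport f ⊆ Metric.ball (0 : E) 1 := by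
  refine (closure_minimal (fun y hy => ?_) hS).trans hSb
  by_contra hc
  exact hy (hf y hc)

theorem carl (h : FBMS F) (hφ : ContDiff ℝ ∞ φ) (hO : Cell F φ O) {ψ m η : E → ℝ} (hψ : ContDiff ℝ ∞ ψ)
    (hm : ContDiff ℝ ∞ m) (hη : ContDiff ℝ ∞ η) {c : ℝ} {S : Set E} (hS : IsClosed S)
    (hSb : S ⊆ Metric.ball (0 : E) 1) (hηS : ∀ y, y ∉ S → η y = 0)
    (hw : ∀ y ∈ O, y ∈ S → (∀ z : E → ℝ, ContDiff ℝ ∞ z →
      0 ≤ hs F ψ (fun i => gr F z i y) (fun i => gr F z i y) y + m y * tang F z z y) ∧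
      c ≤ hs F ψ (fun i => gr F ψ i y) (fun i => gr F ψ i y) y - m y * tang F ψ ψ y) :
    ∃ C : ℝ, 0 ≤ C ∧ ∀ τ : ℝ, 1 ≤ τ →
      (4 * τ ^ 3 * c - C * τ ^ 2) * area F (fun y => ind O y * (Real.exp (τ * ψ y) * (η y * φ y)) ^ 2) ≤
        area F (fun y => ind O y * (Real.exp (τ * ψ y) * lap F (fun y => η y * φ y) y) ^ 2) := by
  have hF := h.smooth
  have hmO : MeasurableSet O := meas_rel h hO.sub hO.opn
  have sLψ := contDiff_lap hF hψ
  have sLLψ := contDiff_lap hF sLψ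
  have sLm := contDiff_lap hF hm
  have sψψ := contDiff_tang hF hψ hψ
  have smψ := contDiff_tang hF hm hψ
  obtain ⟨C, hC0, hC⟩ := bdd h (k := fun y => |lap F (lap F ψ) y| + 2 * |lap F m y| + 4 * |tang F m ψ y| + 8 * m y ^ 2)
    (((sLLψ.continuous.abs.add (continuous_const.mul sLm.continuous.abs)).add
      (continuous_const.mul smψ.continuous.abs)).add (continuous_const.mul (hm.continuous.pow 2)))
  refine ⟨C, hC0, fun τ hτ => ?_⟩
  have hτ0 : 0 < τ := by linarith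
  -- `z = exp (τ ψ) η φ`
  have hexp : ContDiff ℝ ∞ fun y => Real.exp (τ * ψ y) := (contDiff_const.mul hψ).exp
  obtain ⟨A, hA⟩ : ∃ A, A = fun y => Real.exp (τ * ψ y) * η y := ⟨_, rfl⟩
  have sA : ContDiff ℝ ∞ A := by rw [hA]; exact hexp.mul hη
  obtain ⟨w, hwd⟩ : ∃ w, w = fun y => η y * φ y := ⟨_, rfl⟩
  have sw : ContDiff ℝ ∞ w := by rw [hwd]; exact hη.mul hφ
  obtain ⟨z, hz⟩ : ∃ z, z = fun y => Real.exp (τ * ψ y) * w y := ⟨_, rfl⟩
  have sz : ContDiff ℝ ∞ z := by rw [hz]; exact hexp.mul sw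
  have hzA : z = fun y => A y * φ y := by
    rw [hz, hA, hwd]
    funext y
    ring
  have slz := contDiff_lap hF sz
  have szz := contDiff_tang hF sz sz
  have sψz := contDiff_tang hF hψ sz
  have hz0 : ∀ y, y ∉ S → ∀ᶠ x in 𝓝 y, z x = 0 := by
    intro y hy
    filter_upwards [hS.isOpen_compl.mem_nhds hy] with x hx
    rw [hz, hwd]
    simp [hηS x hx]
  have zv : ∀ y, y ∉ S → z y = 0 := fun y hy => (hz0 y hy).self_of_nhds
  have zp : ∀ y, y ∉ S → ∀ i, pd i z y = 0 := fun y hy i => pd_of_ev (hz0 y hy) i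
  obtain ⟨Kz, hKz, hbz⟩ := prod_bd h hφ sA
  rw [← hzA] at hbz
  have bz2 : ∀ y ∈ surf F, z y ^ 2 ≤ Kz * rh F φ y := fun y hy => by
    have := (hbz y hy).1
    rwa [show A y * φ y = z y by rw [hzA]] at this
  have bzz : ∀ y ∈ surf F, tang F z z y ≤ Kz * rh F φ y := fun y hy => (hbz y hy).2
  -- the four fields
  have s1 : ContDiff ℝ ∞ (f1 F ψ m z τ) := by
    unfold f1
    exact ((contDiff_const.mul sψz).sub ((contDiff_const.mul sLψ).mul sz)).sub ((contDiff_const.mul hm).mul sz)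
  have s2 : ContDiff ℝ ∞ (f2 F ψ m z τ) := by
    unfold f2
    exact ((contDiff_const.mul szz).sub ((contDiff_const.mul sψψ).mul (sz.pow 2))).sub
      ((contDiff_const.mul hm).mul (sz.pow 2))
  have s3 : ContDiff ℝ ∞ (f3 z τ) := by
    unfold f3
    exact contDiff_const.mul (sz.pow 2)
  have s4 : ContDiff ℝ ∞ (f4 z τ) := by
    unfold f4
    exact contDiff_const.mul (sz.pow 2)
  have t1 : tsupport (f1 F ψ m z τ) ⊆ Metric.ball (0 : E) 1 := tsupp hS hSb fun y hy => by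
    unfold f1
    rw [zv y hy, tang_zero_right (zp y hy)]
    ring
  have t2 : tsupport (f2 F ψ m z τ) ⊆ Metric.ball (0 : E) 1 := tsupp hS hSb fun y hy => by
    unfold f2
    rw [zv y hy, tang_zero_right (zp y hy)]
    ring
  have t3 : tsupport (f3 z τ) ⊆ Metric.ball (0 : E) 1 := tsupp hS hSb fun y hy => by
    unfold f3
    rw [zv y hy]
    ring
  have t4 : tsupport (f4 z τ) ⊆ Metric.ball (0 : E) 1 := tsupp hS hSb fun y hy => by
    unfold f4
    rw [zv y hy]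
    ring
  -- bounds
  have b1 : ∃ K : ℝ, ∀ y ∈ surf F, f1 F ψ m z τ y ^ 2 * tang F z z y ≤ K * (φ y ^ 2 + tang F φ φ y) ^ 2 := by
    obtain ⟨M, hM0, hM⟩ := bdd h (k := fun y => 32 * τ ^ 2 * tang F ψ ψ y + 2 * (2 * τ * lap F ψ y + 4 * τ * m y) ^ 2)
      ((continuous_const.mul sψψ.continuous).add (continuous_const.mul
        (((continuous_const.mul sLψ.continuous).add (continuous_const.mul hm.continuous)).pow 2)))
    refine ⟨M * Kz * Kz, fun y hy => ?_⟩
    have m1 := (le_abs_self _).trans (hM y hy)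
    have q1 := cs h ψ z hy
    have q2 := bz2 y hy
    have q3 := bzz y hy
    have q4 := tang_nonneg h z hy
    have q5 := tang_nonneg h ψ hy
    have q6 : 0 ≤ rh F φ y := rh_nonneg h hy
    have e1 : f1 F ψ m z τ y ^ 2 ≤ 32 * τ ^ 2 * tang F ψ z y ^ 2 + 2 * (2 * τ * lap F ψ y + 4 * τ * m y) ^ 2 * z y ^ 2 := by
      unfold f1
      nlinarith [sq_nonneg (-4 * τ * tang F ψ z y + (2 * τ * lap F ψ y + 4 * τ * m y) * z y)]
    have e2 : f1 F ψ m z τ y ^ 2 ≤ M * (Kz * rh F φ y) := by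
      have c1 : 32 * τ ^ 2 * tang F ψ z y ^ 2 ≤ 32 * τ ^ 2 * tang F ψ ψ y * (Kz * rh F φ y) := by
        have d1 : tang F ψ z y ^ 2 ≤ tang F ψ ψ y * (Kz * rh F φ y) := q1.trans (mul_le_mul_of_nonneg_left q3 q5)
        have d2 := mul_le_mul_of_nonneg_left d1 (show (0 : ℝ) ≤ 32 * τ ^ 2 by positivity)
        linarith
      have c2 : 2 * (2 * τ * lap F ψ y + 4 * τ * m y) ^ 2 * z y ^ 2 ≤
          2 * (2 * τ * lap F ψ y + 4 * τ * m y) ^ 2 * (Kz * rh F φ y) :=
        mul_le_mul_of_nonneg_left q2 (by positivity)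
      have c3 := mul_le_mul_of_nonneg_right m1 (mul_nonneg hKz q6)
      linarith
    have e3 : f1 F ψ m z τ y ^ 2 * tang F z z y ≤ M * (Kz * rh F φ y) * (Kz * rh F φ y) :=
      mul_le_mul e2 q3 q4 (mul_nonneg hM0 (mul_nonneg hKz q6))
    calc _ ≤ _ := e3
      _ = M * Kz * Kz * (φ y ^ 2 + tang F φ φ y) ^ 2 := by unfold rh; ring
  have b2 : ∃ K : ℝ, ∀ y ∈ surf F, f2 F ψ m z τ y ^ 2 * tang F ψ ψ y ≤ K * (φ y ^ 2 + tang F φ φ y) ^ 2 := by
    obtain ⟨M, hM0, hM⟩ := bdd h (k := fun y => tang F ψ ψ y) sψψ.continuous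
    obtain ⟨M', hM0', hM'⟩ := bdd h (k := fun y => 2 * τ ^ 3 * tang F ψ ψ y + 4 * τ ^ 2 * m y)
      ((continuous_const.mul sψψ.continuous).add (continuous_const.mul hm.continuous))
    refine ⟨(2 * τ * Kz + M' * Kz) ^ 2 * M, fun y hy => ?_⟩
    have m1 := (le_abs_self _).trans (hM y hy)
    have m2 := hM' y hy
    have q2 := bz2 y hy
    have q3 := bzz y hy
    have q4 := tang_nonneg h z hy
    have q5 := tang_nonneg h ψ hy
    have q6 : 0 ≤ rh F φ y := rh_nonneg h hy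
    have e1 : |f2 F ψ m z τ y| ≤ (2 * τ * Kz + M' * Kz) * rh F φ y := by
      have d1 : f2 F ψ m z τ y = 2 * τ * tang F z z y - (2 * τ ^ 3 * tang F ψ ψ y + 4 * τ ^ 2 * m y) * z y ^ 2 := by
        unfold f2
        ring
      have d2 : |2 * τ * tang F z z y| ≤ 2 * τ * (Kz * rh F φ y) := by
        rw [abs_of_nonneg (by positivity)]
        exact mul_le_mul_of_nonneg_left q3 (by positivity)
      have d3 : |(2 * τ ^ 3 * tang F ψ ψ y + 4 * τ ^ 2 * m y) * z y ^ 2| ≤ M' * (Kz * rh F φ y) := by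
        rw [abs_mul, abs_of_nonneg (sq_nonneg (z y))]
        exact mul_le_mul m2 q2 (sq_nonneg _) hM0'
      rw [d1]
      have d4 := abs_sub (2 * τ * tang F z z y) ((2 * τ ^ 3 * tang F ψ ψ y + 4 * τ ^ 2 * m y) * z y ^ 2)
      linarith
    have e2 : f2 F ψ m z τ y ^ 2 ≤ ((2 * τ * Kz + M' * Kz) * rh F φ y) ^ 2 := by
      rw [← sq_abs (f2 F ψ m z τ y)]
      exact pow_le_pow_left₀ (abs_nonneg _) e1 2
    have e3 := mul_le_mul e2 m1 q5 (sq_nonneg _)
    calc _ ≤ _ := e3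
      _ = (2 * τ * Kz + M' * Kz) ^ 2 * M * (φ y ^ 2 + tang F φ φ y) ^ 2 := by unfold rh; ring
  have bq : ∀ (g : E → ℝ) (hg : ContDiff ℝ ∞ g) (a : ℝ), ∃ K : ℝ, ∀ y ∈ surf F,
      (a * z y ^ 2) ^ 2 * tang F g g y ≤ K * (φ y ^ 2 + tang F φ φ y) ^ 2 := by
    intro g hg a
    obtain ⟨M, hM0, hM⟩ := bdd h (k := fun y => tang F g g y) (contDiff_tang hF hg hg).continuous
    refine ⟨a ^ 2 * Kz ^ 2 * M, fun y hy => ?_⟩
    have m1 := (le_abs_self _).trans (hM y hy)
    have q2 := bz2 y hy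
    have q5 := tang_nonneg h g hy
    have q6 : 0 ≤ rh F φ y := rh_nonneg h hy
    have e1 : (z y ^ 2) ^ 2 ≤ (Kz * rh F φ y) ^ 2 := pow_le_pow_left₀ (sq_nonneg _) q2 2
    have e2 : (a * z y ^ 2) ^ 2 ≤ a ^ 2 * (Kz * rh F φ y) ^ 2 := by
      rw [mul_pow]
      exact mul_le_mul_of_nonneg_left e1 (sq_nonneg _)
    have e3 := mul_le_mul e2 m1 q5 (by positivity)
    calc _ ≤ _ := e3
      _ = a ^ 2 * Kz ^ 2 * M * (φ y ^ 2 + tang F φ φ y) ^ 2 := by unfold rh; ring
  obtain ⟨K1, hK1⟩ := b1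
  obtain ⟨K2, hK2⟩ := b2
  obtain ⟨K3, hK3⟩ := bq (lap F ψ) sLψ τ
  obtain ⟨K4, hK4⟩ := bq m hm (2 * τ)
  have i1 := ibp h hφ hO s1 sz t1 hK1
  have i2 := ibp h hφ hO s2 hψ t2 hK2
  have i3 := ibp h hφ hO (f := f3 z τ) s3 sLψ t3 (K := K3) hK3
  have i4 := ibp h hφ hO (f := f4 z τ) s4 hm t4 (K := K4) hK4
  -- the inequality
  obtain ⟨T1, hT1⟩ : ∃ T, T = fun y => tang F (f1 F ψ m z τ) z y + f1 F ψ m z τ y * lap F z y := ⟨_, rfl⟩
  obtain ⟨T2, hT2⟩ : ∃ T, T = fun y => tang F (f2 F ψ m z τ) ψ y + f2 F ψ m z τ y * lap F ψ y := ⟨_, rfl⟩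
  obtain ⟨T3, hT3⟩ : ∃ T, T = fun y => tang F (f3 z τ) (lap F ψ) y + f3 z τ y * lap F (lap F ψ) y := ⟨_, rfl⟩
  obtain ⟨T4, hT4⟩ : ∃ T, T = fun y => tang F (f4 z τ) m y + f4 z τ y * lap F m y := ⟨_, rfl⟩
  have cT1 : Continuous T1 := by
    rw [hT1]
    exact ((contDiff_tang hF s1 sz).add (s1.mul slz)).continuous
  have cT2 : Continuous T2 := by
    rw [hT2]
    exact ((contDiff_tang hF s2 hψ).add (s2.mul sLψ)).continuous
  have cT3 : Continuous T3 := by
    rw [hT3]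
    exact ((contDiff_tang hF s3 sLψ).add (s3.mul sLLψ)).continuous
  have cT4 : Continuous T4 := by
    rw [hT4]
    exact ((contDiff_tang hF s4 hm).add (s4.mul sLm)).continuous
  obtain ⟨P, hP⟩ : ∃ P, P = fun y => (Real.exp (τ * ψ y) * lap F w y) ^ 2 := ⟨_, rfl⟩
  have cP : Continuous P := by
    rw [hP]
    exact (hexp.continuous.mul (contDiff_lap hF sw).continuous).pow 2
  obtain ⟨a, ha⟩ : ∃ a, a = 4 * τ ^ 3 * c - C * τ ^ 2 := ⟨_, rfl⟩
  have main : ∀ y ∈ O, a * z y ^ 2 + T1 y + T2 y + T3 y + T4 y ≤ P y := by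
    intro y hy
    have hys := hO.sub hy
    have id1 := carl_id h hψ hm sz τ hys
    have id2 : lap F z y - 2 * τ * tang F ψ z y + (τ ^ 2 * tang F ψ ψ y - τ * lap F ψ y) * z y =
        Real.exp (τ * ψ y) * lap F w y := by
      have := conj (F := F) hψ sw τ y
      rw [hz]
      exact this
    have hE : |-τ * lap F (lap F ψ) y - 2 * τ * lap F m y + 4 * τ ^ 2 * tang F m ψ y - 8 * τ ^ 2 * m y ^ 2| ≤
        C * τ ^ 2 := by
      have r1 := (le_abs_self _).trans (hC y hys)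
      have hτ2 : τ ≤ τ ^ 2 := by nlinarith
      have x1 : |τ * lap F (lap F ψ) y| ≤ τ ^ 2 * |lap F (lap F ψ) y| := by
        rw [abs_mul, abs_of_pos hτ0]
        exact mul_le_mul_of_nonneg_right hτ2 (abs_nonneg _)
      have x2 : |2 * τ * lap F m y| ≤ τ ^ 2 * (2 * |lap F m y|) := by
        rw [abs_mul, abs_of_pos (by positivity)]
        nlinarith [mul_le_mul_of_nonneg_right hτ2 (abs_nonneg (lap F m y))]
      have x3 : |4 * τ ^ 2 * tang F m ψ y| = τ ^ 2 * (4 * |tang F m ψ y|) := by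
        rw [abs_mul, abs_of_pos (by positivity)]
        ring
      have x4 : 0 ≤ 8 * τ ^ 2 * m y ^ 2 := by positivity
      have x5 := mul_le_mul_of_nonneg_left r1 (sq_nonneg τ)
      have y1 := abs_le.1 x1
      have y2 := abs_le.1 x2
      have y3 := abs_le.1 x3.le
      rw [abs_le]
      constructor
      · nlinarith [y1.1, y1.2, y2.1, y2.2, y3.1, y3.2]
      · nlinarith [y1.1, y1.2, y2.1, y2.2, y3.1, y3.2]
    have hmain : a * z y ^ 2 ≤ 4 * τ * (hs F ψ (fun i => gr F z i y) (fun i => gr F z i y) y + m y * tang F z z y) +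
        4 * τ ^ 3 * (hs F ψ (fun i => gr F ψ i y) (fun i => gr F ψ i y) y - m y * tang F ψ ψ y) * z y ^ 2 +
        (-τ * lap F (lap F ψ) y - 2 * τ * lap F m y + 4 * τ ^ 2 * tang F m ψ y - 8 * τ ^ 2 * m y ^ 2) * z y ^ 2 := by
      by_cases hyS : y ∈ S
      · obtain ⟨w1, w2⟩ := hw y hy hyS
        have w3 := w1 z sz
        have w4 := mul_nonneg (show (0 : ℝ) ≤ 4 * τ by positivity) w3
        have w5 := mul_le_mul_of_nonneg_left w2 (show (0 : ℝ) ≤ 4 * τ ^ 3 * z y ^ 2 by positivity)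
        have w6 := mul_le_mul_of_nonneg_right (abs_le.1 hE).1 (sq_nonneg (z y))
        rw [ha]
        nlinarith
      · have g0 : ∀ i, gr F z i y = 0 := by
          intro i
          unfold gr
          simp [zp y hyS]
        have e0 : hs F ψ (fun i => gr F z i y) (fun i => gr F z i y) y = 0 := by
          unfold hs
          simp [g0]
        rw [e0, zv y hyS, tang_zero_right (zp y hyS)]
        simp
    have id3 : P y = (lap F z y + τ ^ 2 * tang F ψ ψ y * z y + 2 * τ * m y * z y +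
        (-2 * τ * tang F ψ z y - τ * lap F ψ y * z y - 2 * τ * m y * z y)) ^ 2 := by
      rw [hP]
      show (Real.exp (τ * ψ y) * lap F w y) ^ 2 = _
      rw [← id2]
      ring
    rw [id3, hT1, hT2, hT3, hT4]
    simp only
    nlinarith [sq_nonneg (lap F z y + τ ^ 2 * tang F ψ ψ y * z y + 2 * τ * m y * z y),
      sq_nonneg (-2 * τ * tang F ψ z y - τ * lap F ψ y * z y - 2 * τ * m y * z y)]
  have hfin := area_ind_mono h hmO (k := fun y => a * z y ^ 2 - (-(T1 y + T2 y + T3 y + T4 y))) (l := P)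
    ((continuous_const.mul (sz.continuous.pow 2)).sub (((cT1.add cT2).add cT3).add cT4).neg) cP
    (fun y hy => by have := main y hy; linarith)
  have e5 := area_ind_sub h hmO (k := fun y => a * z y ^ 2) (l := fun y => -(T1 y + T2 y + T3 y + T4 y))
    (continuous_const.mul (sz.continuous.pow 2)) (((cT1.add cT2).add cT3).add cT4).neg
  rw [e5, area_ind_mul] at hfin
  have hsum : area F (fun y => ind O y * (-(T1 y + T2 y + T3 y + T4 y))) = 0 := by
    have e1 : (fun y => ind O y * (-(T1 y + T2 y + T3 y + T4 y))) =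
        fun y => ind O y * ((((0 - T1 y) - T2 y) - T3 y) - T4 y) := by
      funext y
      ring
    have c0 : Continuous fun _ : E => (0 : ℝ) := continuous_const
    have r1 := area_ind_sub h hmO (k := fun y => 0 - T1 y - T2 y - T3 y) (l := T4) (((c0.sub cT1).sub cT2).sub cT3) cT4
    have r2 := area_ind_sub h hmO (k := fun y => 0 - T1 y - T2 y) (l := T3) ((c0.sub cT1).sub cT2) cT3
    have r3 := area_ind_sub h hmO (k := fun y => 0 - T1 y) (l := T2) (c0.sub cT1) cT2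
    have r4 := area_ind_sub h hmO (k := fun _ => 0) (l := T1) c0 cT1
    rw [e1, r1, r2, r3, r4]
    have j1 : area F (fun y => ind O y * T1 y) = 0 := by rw [hT1]; exact i1
    have j2 : area F (fun y => ind O y * T2 y) = 0 := by rw [hT2]; exact i2
    have j3 : area F (fun y => ind O y * T3 y) = 0 := by rw [hT3]; exact i3
    have j4 : area F (fun y => ind O y * T4 y) = 0 := by rw [hT4]; exact i4
    have j0 : area F (fun y => ind O y * (0 : ℝ)) = 0 := by simp [area]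
    rw [j0, j1, j2, j3, j4]
    ring
  rw [hsum, sub_zero, ha, hP, hz, hwd] at hfin
  exact hfin

end Pool.Agent.Helper99.RS
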