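import Pool.Agent.Helper99.RS.UCarl
import Pool.Agent.Helper78.RS.Weight

/-!
# RS: unique continuation for the kernel of the second variation
-/

set_option autoImplicit false

open MeasureTheory Filter
open scoped ContDiff Topology

namespace Pool.Agent.Helper99.RS

open Pool.Agent.Helper78.FB

variable {F φ : E → ℝ} {O : Set E}

private theorem nsq (a : E) : ContDiff ℝ ∞ fun y : E => ‖y - a‖ ^ 2 := (contDiff_id.sub contDiff_const).norm_sq ℝ

/-- A cut-off function. -/
private theorem cutoff (a : E) {r R : ℝ} (hr : 0 < r) (hrR : r < R) : ∃ η : E → ℝ, ContDiff ℝ ∞ η ∧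
    (∀ y, ‖y - a‖ ≤ r → η y = 1) ∧ ∀ y, R ≤ ‖y - a‖ → η y = 0 := by
  have h0 : 0 < R ^ 2 - r ^ 2 := by nlinarith
  have hst : ContDiff ℝ ∞ Real.smoothTransition := Real.smoothTransition.contDiff (n := ⊤)
  refine ⟨fun y => Real.smoothTransition ((R ^ 2 - ‖y - a‖ ^ 2) / (R ^ 2 - r ^ 2)),
    hst.comp ((contDiff_const.sub (nsq a)).div_const _), fun y hy => ?_, fun y hy => ?_⟩
  · apply Real.smoothTransition.one_of_one_le
    rw [le_div_iff₀ h0]
    nlinarith [norm_nonneg (y - a)]
  · apply Real.smoothTransition.zero_of_nonpos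
    apply div_nonpos_of_nonpos_of_nonneg _ h0.le
    nlinarith [norm_nonneg (y - a)]

theorem uc_loc (h : FBMS F) (N : Null F φ) (hO : Cell F φ O) {b : E} (hb : b ∈ inn F) : ∃ R : ℝ, 0 < R ∧
    ∀ a ∈ inn F, a ∈ Metric.ball b R → a ∉ closure O → ∀ y ∈ O, ¬ ‖y - a‖ < R := by
  have hφ := N.smooth
  have hF := h.smooth
  obtain ⟨R0, hR0, hball, hW⟩ := weight h hb
  refine ⟨R0 / 2, by positivity, fun a ha hab haO y0 hy0 hlt => ?_⟩
  have hab' : dist a b < R0 / 2 := hab
  obtain ⟨ρ, hρ, hρO⟩ : ∃ ρ : ℝ, 0 < ρ ∧ ∀ y ∈ O, ρ ≤ ‖y - a‖ := by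
    have h1 : (closure O)ᶜ ∈ 𝓝 a := isClosed_closure.isOpen_compl.mem_nhds haO
    obtain ⟨ρ, hρ, h2⟩ := Metric.mem_nhds_iff.1 h1
    refine ⟨ρ, hρ, fun y hy => ?_⟩
    by_contra hc
    rw [not_le, ← dist_eq_norm] at hc
    exact h2 hc (subset_closure hy)
  obtain ⟨ψ, m, c, hc, hψ, hm, hψe, hw⟩ := hW a ha (Metric.ball_subset_ball (by linarith) hab) ρ hρ
  obtain ⟨S, hSd⟩ : ∃ S, S = Metric.closedBall a R0 := ⟨_, rfl⟩
  have hS : IsClosed S := by rw [hSd]; exact Metric.isClosed_closedBall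
  have hSb : S ⊆ Metric.ball (0 : E) 1 := by
    rw [hSd]
    refine Set.Subset.trans (Metric.closedBall_subset_closedBall' ?_) hball
    linarith
  -- radii
  obtain ⟨r2, hr2, hr2'⟩ := exists_between hlt
  obtain ⟨r1, hr1⟩ : ∃ r, r = R0 / 2 := ⟨_, rfl⟩
  rw [← hr1] at hr2' hlt
  have hr20 : 0 < r2 := (norm_nonneg _).trans_lt hr2
  have hr10 : 0 < r1 := hr20.trans hr2'
  have hr1R : r1 < R0 := by rw [hr1]; linarith
  obtain ⟨η, hη, hη1, hη0⟩ := cutoff a hr10 hr1R
  have hηS : ∀ y, y ∉ S → η y = 0 := by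
    intro y hy
    apply hη0
    rw [hSd, Metric.mem_closedBall, not_le, dist_eq_norm] at hy
    exact hy.le
  obtain ⟨C, hC0, hcarl⟩ := carl h hφ hO hψ hm hη (c := c) hS hSb hηS fun y hy hyS => by
    rw [hSd, Metric.mem_closedBall, dist_eq_norm] at hyS
    exact hw y (hO.sub hy) (hρO y hy) hyS
  -- the commutator
  obtain ⟨B, hB⟩ : ∃ B, B = fun y => φ y * lap F η y + 2 * tang F η φ y := ⟨_, rfl⟩
  have cB : Continuous B := by
    rw [hB]
    exact (hφ.continuous.mul (contDiff_lap hF hη).continuous).add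
      (continuous_const.mul (contDiff_tang hF hη hφ).continuous)
  have hmO : MeasurableSet O := meas_rel h hO.sub hO.opn
  obtain ⟨M, hM0, hM⟩ := bdd h (k := fun y => normA F y ^ 2) ((contDiff_normA hF).continuous.pow 2)
  obtain ⟨β, hβ⟩ : ∃ β, β = area F (fun y => ind O y * B y ^ 2) := ⟨_, rfl⟩
  have hcw : Continuous (lap F fun y => η y * φ y) := (contDiff_lap hF (hη.mul hφ)).continuous
  have hJ : ∀ τ : ℝ, 1 ≤ τ → area F (fun y => ind O y * (Real.exp (τ * ψ y) * lap F (fun y => η y * φ y) y) ^ 2) ≤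
      2 * M * area F (fun y => ind O y * (Real.exp (τ * ψ y) * (η y * φ y)) ^ 2) +
        2 * Real.exp (2 * τ / r1 ^ 2) * β := by
    intro τ hτ
    have cE : Continuous fun y => Real.exp (τ * ψ y) := (continuous_const.mul hψ.continuous).rexp
    have l1 := area_ind_mono h hmO (k := fun y => (Real.exp (τ * ψ y) * lap F (fun y => η y * φ y) y) ^ 2)
      (l := fun y => 2 * M * (Real.exp (τ * ψ y) * (η y * φ y)) ^ 2 - -(2 * Real.exp (2 * τ / r1 ^ 2) * B y ^ 2))
      ((cE.mul hcw).pow 2)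
      ((continuous_const.mul ((cE.mul (hη.continuous.mul hφ.continuous)).pow 2)).sub
        (continuous_const.mul (cB.pow 2)).neg) fun y hy => ?_
    · have e1 := area_ind_sub h hmO (k := fun y => 2 * M * (Real.exp (τ * ψ y) * (η y * φ y)) ^ 2)
        (l := fun y => -(2 * Real.exp (2 * τ / r1 ^ 2) * B y ^ 2))
        (continuous_const.mul ((cE.mul (hη.continuous.mul hφ.continuous)).pow 2))
        (continuous_const.mul (cB.pow 2)).neg
      have e2 : (fun y => ind O y * -(2 * Real.exp (2 * τ / r1 ^ 2) * B y ^ 2)) =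
          fun y => ind O y * ((-(2 * Real.exp (2 * τ / r1 ^ 2))) * B y ^ 2) := by
        funext y
        ring
      rw [e1, area_ind_mul, e2, area_ind_mul, ← hβ] at l1
      linarith
    · have hys := hO.sub hy
      have e0 : lap F (fun y => η y * φ y) y = -normA F y * (η y * φ y) + B y := by
        rw [lap_mul hη hφ, N.lap y hys, hB]
        ring
      have hMy := (le_abs_self _).trans (hM y hys)
      have hBy : (Real.exp (τ * ψ y)) ^ 2 * B y ^ 2 ≤ Real.exp (2 * τ / r1 ^ 2) * B y ^ 2 := by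
        rcases lt_or_ge ‖y - a‖ r1 with hlt1 | hge
        · have hev : η =ᶠ[𝓝 y] fun _ => 1 := by
            have : {x : E | ‖x - a‖ < r1} ∈ 𝓝 y :=
              (isOpen_lt (continuous_id.sub continuous_const).norm continuous_const).mem_nhds hlt1
            filter_upwards [this] with x hx
            exact hη1 x (le_of_lt hx)
          have hp : ∀ i, pd i η y = 0 := fun i => by rw [pd_congr i hev, pd_const]
          have hl : lap F η y = 0 := by
            rw [lap_ev' hev]
            unfold lap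
            simp [pd_const]
          have hB0 : B y = 0 := by
            rw [hB]
            show φ y * lap F η y + 2 * tang F η φ y = 0
            rw [hl, tang_zero_left hp]
            ring
          rw [hB0]
          simp
        · have e3 : Real.exp (τ * ψ y) ^ 2 = Real.exp (2 * (τ * ψ y)) := by
            rw [two_mul, Real.exp_add, sq]
          rw [e3]
          apply mul_le_mul_of_nonneg_right _ (sq_nonneg _)
          apply Real.exp_le_exp.2
          rw [hψe y (hρO y hy)]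
          have e4 : 1 / ‖y - a‖ ^ 2 ≤ 1 / r1 ^ 2 :=
            one_div_le_one_div_of_le (by positivity) (pow_le_pow_left₀ hr10.le hge 2)
          have e5 : 2 * τ / r1 ^ 2 = 2 * (τ * (1 / r1 ^ 2)) := by ring
          rw [e5]
          have := mul_le_mul_of_nonneg_left e4 (show (0 : ℝ) ≤ τ by linarith)
          linarith
      rw [e0]
      have e6 : (Real.exp (τ * ψ y) * (-normA F y * (η y * φ y) + B y)) ^ 2 ≤
          2 * (normA F y ^ 2 * (Real.exp (τ * ψ y) * (η y * φ y)) ^ 2) + 2 * (Real.exp (τ * ψ y) ^ 2 * B y ^ 2) := by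
        nlinarith [sq_nonneg (Real.exp (τ * ψ y) * (normA F y * (η y * φ y) + B y))]
      have e7 : normA F y ^ 2 * (Real.exp (τ * ψ y) * (η y * φ y)) ^ 2 ≤ M * (Real.exp (τ * ψ y) * (η y * φ y)) ^ 2 :=
        mul_le_mul_of_nonneg_right hMy (sq_nonneg _)
      linarith
  -- a bump at `y0`
  have hy0s := hO.sub hy0
  have hy0i : y0 ∈ inn F := by
    refine ⟨?_, hy0s.2⟩
    have : y0 ∈ S := by
      rw [hSd, Metric.mem_closedBall, dist_eq_norm]
      linarith
    simpa using hSb this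
  obtain ⟨ε0, hε0, hbO⟩ := hO.opn y0 hy0
  obtain ⟨ε, hε, hεr, hεO⟩ : ∃ ε : ℝ, 0 < ε ∧ (∀ x ∈ Metric.ball y0 ε, ‖x - a‖ ≤ r2) ∧
      ∀ x ∈ surf F, x ∈ Metric.ball y0 ε → x ∈ O := by
    refine ⟨min ε0 (r2 - ‖y0 - a‖), lt_min hε0 (by linarith), fun x hx => ?_, fun x hx hxb => ?_⟩
    · have h1 : dist x y0 < r2 - ‖y0 - a‖ := lt_of_lt_of_le hx (min_le_right _ _)
      rw [dist_eq_norm] at h1
      have h2 : ‖x - a‖ ≤ ‖x - y0‖ + ‖y0 - a‖ := by
        have := norm_add_le (x - y0) (y0 - a)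
        rwa [sub_add_sub_cancel] at this
      linarith
    · exact hbO x hx (Metric.ball_subset_ball (min_le_left _ _) hxb)
  let om : ContDiffBump y0 := ⟨ε / 4, ε / 2, by positivity, by linarith⟩
  have hom : ContDiff ℝ ∞ om := om.contDiff
  have hom0 : ∀ y, y ∉ Metric.ball y0 ε → om y = 0 := by
    intro y hy
    apply om.zero_of_le_dist
    rw [Metric.mem_ball, not_lt] at hy
    show ε / 2 ≤ dist y y0
    linarith
  obtain ⟨α, hα⟩ : ∃ α, α = area F (fun y => om y * φ y ^ 2) := ⟨_, rfl⟩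
  have hα0 : 0 ≤ α := by
    rw [hα]
    exact area_nonneg h fun y _ => mul_nonneg om.nonneg (sq_nonneg _)
  have hlow : ∀ τ : ℝ, 1 ≤ τ → Real.exp (2 * τ / r2 ^ 2) * α ≤
      area F (fun y => ind O y * (Real.exp (τ * ψ y) * (η y * φ y)) ^ 2) := by
    intro τ hτ
    have cE : Continuous fun y => Real.exp (τ * ψ y) := (continuous_const.mul hψ.continuous).rexp
    have hle : ∀ y ∈ surf F, ind O y * (Real.exp (2 * τ / r2 ^ 2) * (om y * φ y ^ 2)) ≤
        ind O y * (Real.exp (τ * ψ y) * (η y * φ y)) ^ 2 := by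
      intro y hy
      by_cases hyO : y ∈ O
      · rw [ind_mem hyO, one_mul, one_mul]
        by_cases hyb : y ∈ Metric.ball y0 ε
        · have h1 := hεr y hyb
          have h2 : η y = 1 := hη1 y (by linarith)
          have h3 : Real.exp (τ * ψ y) ^ 2 = Real.exp (2 * (τ * ψ y)) := by
            rw [two_mul, Real.exp_add, sq]
          have h4 : Real.exp (2 * τ / r2 ^ 2) ≤ Real.exp (τ * ψ y) ^ 2 := by
            rw [h3]
            apply Real.exp_le_exp.2
            rw [hψe y (hρO y hyO)]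
            have hpos : 0 < ‖y - a‖ := lt_of_lt_of_le hρ (hρO y hyO)
            have e4 : 1 / r2 ^ 2 ≤ 1 / ‖y - a‖ ^ 2 :=
              one_div_le_one_div_of_le (by positivity) (pow_le_pow_left₀ hpos.le h1 2)
            have e5 : 2 * τ / r2 ^ 2 = 2 * (τ * (1 / r2 ^ 2)) := by ring
            rw [e5]
            have := mul_le_mul_of_nonneg_left e4 (show (0 : ℝ) ≤ τ by linarith)
            linarith
          have h5 : om y ≤ 1 := om.le_one
          have h6 : 0 ≤ om y := om.nonneg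
          rw [h2, one_mul, mul_pow]
          have h7 : om y * φ y ^ 2 ≤ φ y ^ 2 := by nlinarith [sq_nonneg (φ y)]
          exact mul_le_mul h4 h7 (mul_nonneg h6 (sq_nonneg _)) (by positivity)
        · rw [hom0 y hyb]
          have := sq_nonneg (Real.exp (τ * ψ y) * (η y * φ y))
          linarith
      · rw [ind_not hyO, zero_mul, zero_mul]
    have e1 : Real.exp (2 * τ / r2 ^ 2) * α =
        area F (fun y => ind O y * (Real.exp (2 * τ / r2 ^ 2) * (om y * φ y ^ 2))) := by
      rw [area_ind_mul, hα]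
      congr 1
      refine area_congr (fun y hy => ?_) h
      by_cases hyO : y ∈ O
      · rw [ind_mem hyO, one_mul]
      · rw [ind_not hyO, zero_mul, hom0 y fun hb => hyO (hεO y hy hb), zero_mul]
    rw [e1]
    refine area_ind_mono h hmO (continuous_const.mul (hom.continuous.mul (hφ.continuous.pow 2)))
      ((cE.mul (hη.continuous.mul hφ.continuous)).pow 2) fun y hy => ?_
    have := hle y (hO.sub hy)
    rwa [ind_mem hy, one_mul, one_mul] at this
  -- `α ≤ 2 β exp (-δ τ)` for large `τ`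
  obtain ⟨δ, hδ⟩ : ∃ δ, δ = 2 / r2 ^ 2 - 2 / r1 ^ 2 := ⟨_, rfl⟩
  have hδ0 : 0 < δ := by
    rw [hδ, sub_pos]
    exact div_lt_div_of_pos_left (by norm_num) (by positivity) (pow_lt_pow_left₀ hr2' hr20.le two_ne_zero)
  have hα1 : ∀ᶠ τ in atTop, α ≤ 2 * β * Real.exp (-(δ * τ)) := by
    filter_upwards [eventually_ge_atTop (max 1 ((C + 2 * M + 1) / (4 * c)))] with τ hτ
    have hτ1 : 1 ≤ τ := (le_max_left _ _).trans hτ
    have hτ2 : C + 2 * M + 1 ≤ 4 * c * τ := by
      have := (le_max_right _ _).trans hτ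
      rw [div_le_iff₀ (by positivity)] at this
      linarith
    have k1 := hcarl τ hτ1
    have k2 := hJ τ hτ1
    have k3 := hlow τ hτ1
    obtain ⟨I, hI⟩ : ∃ I, I = area F (fun y => ind O y * (Real.exp (τ * ψ y) * (η y * φ y)) ^ 2) := ⟨_, rfl⟩
    rw [← hI] at k1 k2 k3
    have hI0 : 0 ≤ I := by
      rw [hI]
      exact area_ind_nonneg h fun y _ => sq_nonneg _
    have k4 : 1 ≤ 4 * τ ^ 3 * c - C * τ ^ 2 - 2 * M := by
      have j1 := mul_le_mul_of_nonneg_right hτ2 (sq_nonneg τ)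
      have j2 : 1 ≤ τ ^ 2 := by nlinarith
      nlinarith
    have k5 : I ≤ 2 * Real.exp (2 * τ / r1 ^ 2) * β := by
      have j3 := mul_le_mul_of_nonneg_right k4 hI0
      nlinarith
    have k6 : Real.exp (2 * τ / r2 ^ 2) * α ≤ 2 * Real.exp (2 * τ / r1 ^ 2) * β := k3.trans k5
    have k7 : Real.exp (2 * τ / r2 ^ 2) = Real.exp (δ * τ) * Real.exp (2 * τ / r1 ^ 2) := by
      rw [← Real.exp_add, hδ]
      congr 1
      ring
    rw [k7] at k6
    have k8 := Real.exp_pos (2 * τ / r1 ^ 2)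
    have k9 : Real.exp (δ * τ) * α ≤ 2 * β := by
      have : Real.exp (2 * τ / r1 ^ 2) * (Real.exp (δ * τ) * α) ≤ Real.exp (2 * τ / r1 ^ 2) * (2 * β) := by
        linarith
      exact le_of_mul_le_mul_left this k8
    rw [Real.exp_neg, ← div_eq_mul_inv, le_div_iff₀ (Real.exp_pos _)]
    linarith
  have hα2 : α ≤ 0 := by
    have t1 : Tendsto (fun τ : ℝ => 2 * β * Real.exp (-(δ * τ))) atTop (𝓝 (2 * β * 0)) := by
      refine Tendsto.const_mul _ ?_
      exact Real.tendsto_exp_neg_atTop_nhds_zero.comp (tendsto_id.const_mul_atTop hδ0)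
    rw [mul_zero] at t1
    exact ge_of_tendsto t1 hα1
  have hz : ∀ y ∈ surf F, y ∈ Metric.ball y0 (ε / 4) → φ y = 0 := by
    intro y hy hyb
    by_contra hne
    have h1 : om y = 1 := om.one_of_mem_closedBall (Metric.ball_subset_closedBall hyb)
    have h2 := area_pos h (f := fun y => om y * φ y ^ 2) (hom.continuous.mul (hφ.continuous.pow 2)).continuousOn
      (fun y _ => mul_nonneg om.nonneg (sq_nonneg _)) hy (by rw [h1, one_mul]; positivity)
    linarith [hα ▸ h2]
  have hrh := rh_zero h hφ hy0i (by positivity) hz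
  have := hO.pos y0 hy0
  unfold rh at hrh
  linarith
where
  lap_ev' {F f g : E → ℝ} {y : E} (h : f =ᶠ[𝓝 y] g) : lap F f y = lap F g y := by
    unfold lap
    have h1 : ∀ i j : Fin 3, pd i (pd j f) y = pd i (pd j g) y := fun i j => by
      have h2 : pd j f =ᶠ[𝓝 y] pd j g := by
        filter_upwards [h.eventuallyEq_nhds] with x hx
        exact pd_congr j hx
      exact pd_congr i h2
    simp only [h1]

/-- Unique continuation. -/
theorem uc (h : FBMS F) (hconn : IsPreconnected (inn F)) (N : Null F φ) : UC F φ := by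
  intro O hO ⟨a, ha, haO⟩ y hy hyi
  -- `inn \ closure O` is relatively open and closed in `inn`
  have hop : IsOpen (closure O)ᶜ := isClosed_closure.isOpen_compl
  choose! R hR hRu using fun (b : E) (hb : b ∈ inn F) => uc_loc h N hO hb
  obtain ⟨W, hW⟩ : ∃ W, W = ⋃ b ∈ {b | b ∈ inn F ∧ b ∈ closure O}, Metric.ball b (R b / 2) := ⟨_, rfl⟩
  have hWo : IsOpen W := by
    rw [hW]
    exact isOpen_biUnion fun b _ => Metric.isOpen_ball
  obtain ⟨z, hz, hz1, hz2⟩ := hconn _ W hop hWo (fun x hx => by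
    by_cases hxO : x ∈ closure O
    · right
      rw [hW]
      exact Set.mem_biUnion (show x ∈ {b | b ∈ inn F ∧ b ∈ closure O} from ⟨hx, hxO⟩)
        (Metric.mem_ball_self (by have := hR x hx; positivity))
    · exact Or.inl hxO) ⟨a, ha, haO⟩ ⟨y, hyi, by
      rw [hW]
      exact Set.mem_biUnion (show y ∈ {b | b ∈ inn F ∧ b ∈ closure O} from ⟨hyi, subset_closure hy⟩)
        (Metric.mem_ball_self (by have := hR y hyi; positivity))⟩
  rw [hW] at hz2
  simp only [Set.mem_iUnion] at hz2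
  obtain ⟨b, ⟨hb, hbO⟩, hzb⟩ := hz2
  have hRb := hR b hb
  have hzb' : dist z b < R b / 2 := hzb
  obtain ⟨x, hx, hxb⟩ := Metric.mem_closure_iff.1 hbO (R b / 2) (by positivity)
  refine hRu b hb z hz (Metric.ball_subset_ball (by linarith) hzb) hz1 x hx ?_
  rw [← dist_eq_norm]
  have := dist_triangle x b z
  rw [dist_comm x b, dist_comm b z] at this
  linarith

end Pool.Agent.Helper99.RS
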