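import Pool.Agent.Helper99.RS.UDefs
import Pool.Agent.Helper94.FB.Codazzi

/-!
# RS: tools for unique continuation (integrals over relatively open sets, Cauchy–Schwarz for `tang`)
-/

set_option autoImplicit false

open MeasureTheory Filter
open scoped ContDiff Topology

namespace Pool.Agent.Helper99.RS

open Pool.Agent.Helper78.FB

variable {F φ k l f g : E → ℝ} {O : Set E}

theorem meas_rel (h : FBMS F) (hs : O ⊆ surf F) (ho : ∀ y ∈ O, ∃ ε : ℝ, 0 < ε ∧ ∀ x ∈ surf F, x ∈ Metric.ball y ε → x ∈ O) :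
    MeasurableSet O := by
  choose! ε hε hb using ho
  have e : O = surf F ∩ ⋃ y ∈ O, Metric.ball y (ε y) := by
    ext x
    constructor
    · intro hx
      exact ⟨hs hx, Set.mem_biUnion hx (Metric.mem_ball_self (hε x hx))⟩
    · rintro ⟨hx, hx2⟩
      simp only [Set.mem_iUnion] at hx2
      obtain ⟨y, hy, hxy⟩ := hx2
      exact hb y hy x hx hxy
  rw [e]
  exact (isCompact_surf h).measurableSet.inter (isOpen_biUnion fun y _ => Metric.isOpen_ball).measurableSet

theorem int_ind (h : FBMS F) (hm : MeasurableSet O) (hk : Continuous k) :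
    IntegrableOn (fun y => ind O y * k y) (surf F) μH[2] := by
  obtain ⟨C, hC⟩ := (isCompact_surf h).exists_bound_of_continuousOn hk.continuousOn
  have : IsFiniteMeasure ((μH[2] : Measure E).restrict (surf F)) :=
    ⟨by rw [Measure.restrict_apply_univ]; exact h.finArea⟩
  have e : (fun y => ind O y * k y) = O.indicator k := by
    funext y
    by_cases hy : y ∈ O
    · rw [ind_mem hy, one_mul, Set.indicator_of_mem hy]
    · rw [ind_not hy, zero_mul, Set.indicator_of_notMem hy]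
  rw [e]
  have h1 : IntegrableOn k (surf F) μH[2] :=
    Integrable.of_bound (hk.continuousOn.aestronglyMeasurable (isCompact_surf h).measurableSet) C
      ((ae_restrict_iff' (isCompact_surf h).measurableSet).2 (Eventually.of_forall hC))
  exact h1.indicator hm

theorem area_ind_sub (h : FBMS F) (hm : MeasurableSet O) (hk : Continuous k) (hl : Continuous l) :
    area F (fun y => ind O y * (k y - l y)) = area F (fun y => ind O y * k y) - area F (fun y => ind O y * l y) := by
  unfold area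
  simp only [mul_sub]
  rw [integral_sub (int_ind h hm hk) (int_ind h hm hl), mul_sub]

theorem area_ind_mul (c : ℝ) : area F (fun y => ind O y * (c * k y)) = c * area F (fun y => ind O y * k y) := by
  rw [← area_const_mul]
  congr 1
  funext y
  ring

theorem area_ind_nonneg (h : FBMS F) (hk : ∀ y ∈ O, 0 ≤ k y) : 0 ≤ area F (fun y => ind O y * k y) := by
  refine area_nonneg h fun y _ => ?_
  by_cases hy : y ∈ O
  · rw [ind_mem hy, one_mul]
    exact hk y hy
  · rw [ind_not hy, zero_mul]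

theorem area_ind_mono (h : FBMS F) (hm : MeasurableSet O) (hk : Continuous k) (hl : Continuous l)
    (hkl : ∀ y ∈ O, k y ≤ l y) : area F (fun y => ind O y * k y) ≤ area F (fun y => ind O y * l y) := by
  have h1 := area_ind_sub h hm hl hk
  have h2 := area_ind_nonneg h (O := O) (k := fun y => l y - k y) fun y hy => sub_nonneg.2 (hkl y hy)
  linarith

theorem cs (h : FBMS F) (f g : E → ℝ) {y : E} (hy : y ∈ surf F) :
    tang F f g y ^ 2 ≤ tang F f f y * tang F g g y := by
  have key : ∀ t : ℝ, 0 ≤ tang F f f y * (t * t) + 2 * tang F f g y * t + tang F g g y := by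
    intro t
    have h1 := grad_sq h hy
    have h2 := Finset.sum_mul_sq_le_sq_mul_sq Finset.univ (fun i => pd i F y) (fun i => t * pd i f y + pd i g y)
    rw [h1, one_mul] at h2
    unfold tang
    simp only [Fin.sum_univ_three] at h2 ⊢
    linarith
  have h3 := discrim_le_zero key
  rw [discrim] at h3
  linarith

theorem tang_mul_self (hf : ContDiff ℝ ∞ f) (hg : ContDiff ℝ ∞ g) (y : E) :
    tang F (fun y => f y * g y) (fun y => f y * g y) y =
      f y ^ 2 * tang F g g y + 2 * f y * g y * tang F f g y + g y ^ 2 * tang F f f y := by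
  unfold tang
  simp only [pd_mul _ hf hg, Fin.sum_univ_three]
  ring

theorem tang_zero_left {y : E} (hf : ∀ i, pd i f y = 0) (g : E → ℝ) : tang F f g y = 0 := by
  unfold tang
  simp only [hf]
  simp

theorem tang_zero_right {y : E} (hf : ∀ i, pd i f y = 0) (g : E → ℝ) : tang F g f y = 0 := by
  unfold tang
  simp only [hf]
  simp

theorem pd_of_ev {y : E} (h : f =ᶠ[𝓝 y] fun _ => 0) (i : Fin 3) : pd i f y = 0 := by
  rw [pd_congr i h, pd_const]

/-- The sum of the squares of `φ` and of its tangential gradient. -/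
noncomputable def rh (F φ : E → ℝ) (y : E) : ℝ := φ y ^ 2 + tang F φ φ y

theorem rh_nonneg (h : FBMS F) {y : E} (hy : y ∈ surf F) : 0 ≤ rh F φ y :=
  add_nonneg (sq_nonneg _) (tang_nonneg h φ hy)

/-- If `φ` vanishes on a neighbourhood of `z` in the surface, then `rh F φ z = 0`. -/
theorem rh_zero (h : FBMS F) (hφ : ContDiff ℝ ∞ φ) {z : E} (hz : z ∈ inn F) {ε : ℝ} (hε : 0 < ε)
    (h0 : ∀ y ∈ surf F, y ∈ Metric.ball z ε → φ y = 0) : rh F φ z = 0 := by
  have hzs : z ∈ surf F := ⟨hz.1.le, hz.2⟩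
  obtain ⟨c, hc⟩ := grad_par h hφ hz (Metric.ball z ε) Metric.isOpen_ball (Metric.mem_ball_self hε)
    fun y hy hyb => h0 y ⟨hy.1.le, hy.2⟩ hyb
  have h1 := grad_sq h hzs
  unfold rh tang
  rw [h0 z hzs (Metric.mem_ball_self hε)]
  simp only [hc, Fin.sum_univ_three] at h1 ⊢
  linear_combination (-(c ^ 2 * (pd 0 F z ^ 2 + pd 1 F z ^ 2 + pd 2 F z ^ 2))) * h1

/-- The product of `φ` and a smooth function is controlled by `rh F φ`. -/
theorem prod_bd (h : FBMS F) (hφ : ContDiff ℝ ∞ φ) {A : E → ℝ} (hA : ContDiff ℝ ∞ A) : ∃ C : ℝ, 0 ≤ C ∧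
    ∀ y ∈ surf F, (A y * φ y) ^ 2 ≤ C * rh F φ y ∧
      tang F (fun y => A y * φ y) (fun y => A y * φ y) y ≤ C * rh F φ y := by
  obtain ⟨K1, hK1, h1⟩ := bdd h (k := fun y => A y ^ 2) (hA.continuous.pow 2)
  obtain ⟨K2, hK2, h2⟩ := bdd h (k := fun y => tang F A A y) (contDiff_tang h.smooth hA hA).continuous
  refine ⟨2 * K1 + 2 * K2, by positivity, fun y hy => ?_⟩
  have a1 : A y ^ 2 ≤ K1 := (le_abs_self _).trans (h1 y hy)
  have a2 : tang F A A y ≤ K2 := (le_abs_self _).trans (h2 y hy)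
  have t1 := tang_nonneg h φ hy
  have t2 := tang_nonneg h A hy
  have p0 : 0 ≤ A y ^ 2 := sq_nonneg _
  have p1 : 0 ≤ φ y ^ 2 := sq_nonneg _
  have m1 : A y ^ 2 * φ y ^ 2 ≤ K1 * φ y ^ 2 := mul_le_mul_of_nonneg_right a1 p1
  have m2 : A y ^ 2 * tang F φ φ y ≤ K1 * tang F φ φ y := mul_le_mul_of_nonneg_right a1 t1
  have m3 : φ y ^ 2 * tang F A A y ≤ φ y ^ 2 * K2 := mul_le_mul_of_nonneg_left a2 p1
  have n1 : 0 ≤ K1 * φ y ^ 2 := mul_nonneg hK1 p1
  have n2 : 0 ≤ K2 * φ y ^ 2 := mul_nonneg hK2 p1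
  have n3 : 0 ≤ K1 * tang F φ φ y := mul_nonneg hK1 t1
  have n4 : 0 ≤ K2 * tang F φ φ y := mul_nonneg hK2 t1
  constructor
  · unfold rh
    nlinarith
  · rw [tang_mul_self hA hφ]
    have c1 := cs h A φ hy
    have c2 : 2 * A y * φ y * tang F A φ y ≤ A y ^ 2 * tang F φ φ y + φ y ^ 2 * tang F A A y := by
      have q0 : 0 ≤ A y ^ 2 * tang F φ φ y + φ y ^ 2 * tang F A A y :=
        add_nonneg (mul_nonneg p0 t1) (mul_nonneg p1 t2)
      apply le_of_sq_le_sq' q0
      have q1 : (A y * φ y) ^ 2 * tang F A φ y ^ 2 ≤ (A y * φ y) ^ 2 * (tang F A A y * tang F φ φ y) :=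
        mul_le_mul_of_nonneg_left c1 (sq_nonneg _)
      nlinarith [sq_nonneg (A y ^ 2 * tang F φ φ y - φ y ^ 2 * tang F A A y)]
    unfold rh
    nlinarith
where
  le_of_sq_le_sq' {a b : ℝ} (hb : 0 ≤ b) (h : a ^ 2 ≤ b ^ 2) : a ≤ b := by
    exact (abs_le_of_sq_le_sq' h hb).2

end Pool.Agent.Helper99.RS
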