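import Pool.Agent.Helper99.RS.Sup
import Pool.Agent.Helper99.TS.Main

/-!
# RS: combinations of pieces in the kernel

`bb_sum_zero`: if the Morse index is at most four and `∑ c_i BB (C i) (zz k) = 0` for `k < 4`, where the pieces `C i` are disjoint, then
`∑ c_i BB (C i) f = 0` for every smooth `f`.
-/

set_option autoImplicit false

open MeasureTheory Filter
open scoped ContDiff Topology

namespace Pool.Agent.Helper99.RS

open Pool.Agent.Helper78.FB

variable {F φ f : E → ℝ}

theorem bb_sum_zero (h : FBMS F) (hflat : ∃ y ∈ surf F, normA F y ≠ 0) (hindex : IndexLeFour F) (N : Null F φ)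
    {m : ℕ} (C : Fin m → Set E) (hP : ∀ i, Piece F φ (C i)) (hd : ∀ i j, i ≠ j → Disjoint (C i) (C j))
    (c : Fin m → ℝ) (hc : ∀ k : Fin 4, ∑ i, c i * BB F φ (C i) (zz k) = 0) (hf : ContDiff ℝ ∞ f) :
    ∑ i, c i * BB F φ (C i) f = 0 := by
  have hφ := N.smooth
  choose G A using fun i => exists_appr h hφ (hP i)
  have hG : ∀ i n, ContDiff ℝ ∞ (G i n) := fun i n => (A i).smooth n
  have hS : ∀ n, ContDiff ℝ ∞ (fun y => ∑ i, c i * G i n y) := fun n =>
    ContDiff.sum fun i _ => contDiff_const.mul (hG i n)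
  obtain ⟨K, hK0, hK⟩ := Q_lower h hflat hindex
  -- limits
  have lf : ∀ g : E → ℝ, ContDiff ℝ ∞ g →
      Tendsto (fun n => Q F (fun y => ∑ i, c i * G i n y) g) atTop (𝓝 (∑ i, c i * BB F φ (C i) g)) := by
    intro g hg
    have e : (fun n => Q F (fun y => ∑ i, c i * G i n y) g) = fun n => ∑ i, c i * Q F (G i n) g :=
      funext fun n => TS.Q_sum h Finset.univ c (fun i => G i n) (fun i => hG i n) hg
    rw [e]
    exact tendsto_finset_sum _ fun i _ => (lim_Q h N (hP i) (A i) hg).const_mul (c i)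
  have ls : Tendsto (fun n => Q F (fun y => ∑ i, c i * G i n y) (fun y => ∑ i, c i * G i n y)) atTop (𝓝 0) := by
    have e : (fun n => Q F (fun y => ∑ i, c i * G i n y) (fun y => ∑ i, c i * G i n y)) =
        fun n => ∑ i, c i * (c i * Q F (G i n) (G i n)) := by
      funext n
      rw [TS.Q_sum h Finset.univ c (fun i => G i n) (fun i => hG i n) (hS n)]
      refine Finset.sum_congr rfl fun i _ => ?_
      rw [Q_comm, TS.Q_sum h Finset.univ c (fun i => G i n) (fun i => hG i n) (hG i n),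
        Finset.sum_eq_single i]
      · intro j _ hji
        rw [Q_cross h hφ (A j) (A i) (hd j i hji) n, mul_zero]
      · intro hi
        exact absurd (Finset.mem_univ i) hi
    rw [e]
    have h1 : Tendsto (fun n => ∑ i, c i * (c i * Q F (G i n) (G i n))) atTop (𝓝 (∑ i, c i * (c i * 0))) :=
      tendsto_finset_sum _ fun i _ => ((lim_self h N (hP i) (A i)).const_mul (c i)).const_mul (c i)
    simpa using h1
  obtain ⟨β, hβ⟩ : ∃ β, β = ∑ i, c i * BB F φ (C i) f := ⟨_, rfl⟩
  obtain ⟨S, hSd⟩ : ∃ S, S = ∑ k, Q F f (zz k) ^ 2 := ⟨_, rfl⟩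
  have key : ∀ t : ℝ, -K * (t ^ 2 * S) ≤ 2 * t * β + t ^ 2 * Q F f f := by
    intro t
    have h1 : ∀ n, -K * ∑ k, (Q F (fun y => ∑ i, c i * G i n y) (zz k) + t * Q F f (zz k)) ^ 2 ≤
        Q F (fun y => ∑ i, c i * G i n y) (fun y => ∑ i, c i * G i n y) +
          2 * t * Q F (fun y => ∑ i, c i * G i n y) f + t ^ 2 * Q F f f := by
      intro n
      have h2 := hK (fun y => ∑ i, c i * G i n y + t * f y) ((hS n).add (contDiff_const.mul hf))
      rw [Q_line h t (hS n) hf] at h2
      have h3 : ∀ k, Q F (fun y => ∑ i, c i * G i n y + t * f y) (zz k) =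
          Q F (fun y => ∑ i, c i * G i n y) (zz k) + t * Q F f (zz k) := by
        intro k
        rw [Q_add_left h (hS n) (contDiff_const.mul hf) (contDiff_zz k), Q_const_mul_left h t hf (contDiff_zz k)]
      simp only [h3] at h2
      exact h2
    have l1 : Tendsto (fun n => -K * ∑ k, (Q F (fun y => ∑ i, c i * G i n y) (zz k) + t * Q F f (zz k)) ^ 2) atTop
        (𝓝 (-K * ∑ k : Fin 4, (0 + t * Q F f (zz k)) ^ 2)) := by
      refine Tendsto.const_mul _ (tendsto_finset_sum _ fun k _ => ?_)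
      have h4 := lf (zz k) (contDiff_zz k)
      rw [hc k] at h4
      exact (h4.add_const _).pow 2
    have l2 := (ls.add ((lf f hf).const_mul (2 * t))).add_const (t ^ 2 * Q F f f)
    have h5 := le_of_tendsto_of_tendsto' l1 l2 h1
    rw [← hβ, zero_add] at h5
    have h6 : ∑ k : Fin 4, (0 + t * Q F f (zz k)) ^ 2 = t ^ 2 * S := by
      rw [hSd, Finset.mul_sum]
      exact Finset.sum_congr rfl fun k _ => by ring
    rw [h6] at h5
    exact h5
  rw [← hβ]
  by_contra hne
  -- choose `t` small with the sign of `-β`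
  obtain ⟨M, hM⟩ : ∃ M, M = K * S + Q F f f := ⟨_, rfl⟩
  have k2 : ∀ t : ℝ, 0 ≤ 2 * t * β + t ^ 2 * M := by
    intro t
    have := key t
    rw [hM]
    linarith
  have k3 := k2 (-β / (|M| + 1))
  have hpos : 0 < |M| + 1 := by positivity
  have hb : 0 < β ^ 2 := by positivity
  have e1 : 2 * (-β / (|M| + 1)) * β + (-β / (|M| + 1)) ^ 2 * M =
      β ^ 2 / (|M| + 1) ^ 2 * (M - 2 * (|M| + 1)) := by
    field_simp
    ring
  rw [e1] at k3
  have h7 : 0 < β ^ 2 / (|M| + 1) ^ 2 := by positivity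
  have h8 : M - 2 * (|M| + 1) < 0 := by
    have := le_abs_self M
    have := abs_nonneg M
    linarith
  have := mul_neg_of_pos_of_neg h7 h8
  linarith

end Pool.Agent.Helper99.RS
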